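import Pool.Agent.Helper3.Cop.Basic

set_option autoImplicit false

namespace Pool.Agent.Helper3.Cop

open MeasureTheory Finset Pool.Agent.Helper43.Copula

variable {n : ℕ}

/-- `min (max y 0) 1` -/
noncomputable def clamp (y : ℝ) : ℝ := max 0 (min 1 y)

theorem clamp_nonneg (y : ℝ) : 0 ≤ clamp y := le_max_left _ _
theorem clamp_le_one (y : ℝ) : clamp y ≤ 1 := max_le zero_le_one (min_le_left _ _)
theorem clamp_mono {y z : ℝ} (h : y ≤ z) : clamp y ≤ clamp z :=
  max_le_max le_rfl (min_le_min le_rfl h)
theorem clamp_of_nonpos {y : ℝ} (h : y ≤ 0) : clamp y = 0 := by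
  unfold clamp
  rw [min_eq_right (h.trans zero_le_one), max_eq_left h]
theorem clamp_of_one_le {y : ℝ} (h : 1 ≤ y) : clamp y = 1 := by
  unfold clamp
  rw [min_eq_left h, max_eq_right zero_le_one]

theorem sum_clamp (m : ℕ) (y : ℝ) (hy : 0 ≤ y) :
    ∑ j ∈ range m, clamp (y - j) = min y m := by
  induction m with
  | zero => simp [hy]
  | succ m ih =>
    rw [sum_range_succ, ih]
    push_cast
    unfold clamp
    rcases le_total y m with h | h
    · rw [min_eq_left h, min_eq_right (by linarith : y - m ≤ 1), max_eq_left (by linarith),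
        min_eq_left (by linarith)]
      ring
    · rcases le_total (y - m) 1 with h' | h'
      · rw [min_eq_right h, min_eq_right h', max_eq_right (by linarith), min_eq_left (by linarith)]
        ring
      · rw [min_eq_right h, min_eq_left h', max_eq_right (by linarith), min_eq_right (by linarith)]

/-- cyclic shift of the cells -/
def cell (n : ℕ) (i k : Fin n) : ℕ := ((k : ℕ) + (i : ℕ)) % n

/-- the distribution function of the uniform distribution on the cell `[j/n, (j+1)/n]` -/
noncomputable def cellCdf (n j : ℕ) (x : ℝ) : ℝ := clamp (n * x - j)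

/-- the copula of a random point whose coordinates lie in the cells `k + i (mod n)`, `i` a
uniformly random shift -/
noncomputable def latin (n : ℕ) (x : Fin n → ℝ) : ℝ :=
  (1 / (n : ℝ)) * ∑ i : Fin n, ∏ k, cellCdf n (cell n i k) (x k)

theorem cell_lt (i k : Fin n) : cell n i k < n := Nat.mod_lt _ (Fin.pos i)

theorem sum_cell (k : Fin n) (g : ℕ → ℝ) : ∑ i : Fin n, g (cell n i k) = ∑ j ∈ range n, g j := by
  have hn : 0 < n := Fin.pos k
  haveI : NeZero n := ⟨hn.ne'⟩
  rw [← Fin.sum_univ_eq_sum_range]
  refine Fintype.sum_bijective (fun i : Fin n => k + i) (AddGroup.addLeft_bijective k) _ _ ?_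
  intro i
  simp [cell, Fin.val_add]

theorem prod_cell (i : Fin n) (g : ℕ → ℝ) : ∏ k : Fin n, g (cell n i k) = ∏ j ∈ range n, g j := by
  have hn : 0 < n := Fin.pos i
  haveI : NeZero n := ⟨hn.ne'⟩
  rw [← Fin.prod_univ_eq_prod_range]
  refine Fintype.prod_bijective (fun k : Fin n => k + i) (AddGroup.addRight_bijective i) _ _ ?_
  intro k
  simp [cell, Fin.val_add]

theorem isCopula_latin (hn : 1 ≤ n) : IsCopula n (latin n) where
  range := by
    intro x hx
    have h0 : ∀ i : Fin n, 0 ≤ ∏ k, cellCdf n (cell n i k) (x k) := fun i =>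
      prod_nonneg fun k _ => clamp_nonneg _
    have h1 : ∀ i : Fin n, ∏ k, cellCdf n (cell n i k) (x k) ≤ 1 := fun i =>
      prod_le_one (fun k _ => clamp_nonneg _) fun k _ => clamp_le_one _
    have hn' : (0 : ℝ) < n := by exact_mod_cast hn
    constructor
    · exact mul_nonneg (by positivity) (sum_nonneg fun i _ => h0 i)
    · unfold latin
      rw [one_div, inv_mul_le_iff₀ hn', mul_one]
      calc ∑ i : Fin n, ∏ k, cellCdf n (cell n i k) (x k) ≤ ∑ i : Fin n, 1 :=
            sum_le_sum fun i _ => h1 i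
        _ = n := by simp
  grounded := by
    rintro x - ⟨k, hk⟩
    unfold latin
    rw [sum_eq_zero, mul_zero]
    intro i _
    apply prod_eq_zero (mem_univ k)
    unfold cellCdf
    rw [hk]
    apply clamp_of_nonpos
    simp
  margin := by
    intro x hx k hk
    have hn' : (0 : ℝ) < n := by exact_mod_cast hn
    have h1 : ∀ i : Fin n, ∏ l, cellCdf n (cell n i l) (x l) = cellCdf n (cell n i k) (x k) := by
      intro i
      rw [← mul_prod_erase _ _ (mem_univ k), prod_eq_one, mul_one]
      intro l hl
      rw [hk l (ne_of_mem_erase hl)]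
      apply clamp_of_one_le
      have := cell_lt i l
      have h2 : (cell n i l : ℝ) + 1 ≤ n := by exact_mod_cast this
      linarith
    unfold latin
    rw [sum_congr rfl fun i _ => h1 i]
    unfold cellCdf
    rw [sum_cell k (fun j => clamp (n * x k - j)), sum_clamp _ _ (by have := (hx k).1; positivity),
      min_eq_left (by have := (hx k).2; nlinarith)]
    field_simp
  increasing := by
    intro u _ v _ huv
    have h : boxVolume (latin n) u v = (1 / (n : ℝ)) * ∑ i : Fin n,
        boxVolume (fun x => ∏ k, cellCdf n (cell n i k) (x k)) u v :=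
      boxVolume_sum univ _ _ u v
    rw [h]
    refine mul_nonneg (by positivity) (sum_nonneg fun i _ => ?_)
    rw [boxVolume_prod]
    refine prod_nonneg fun k _ => sub_nonneg.mpr (clamp_mono ?_)
    have := huv k
    have hn' : (0 : ℝ) ≤ n := by positivity
    nlinarith

/-- the boxes outside which `latin` vanishes -/
def latinBox (n : ℕ) (i : Fin n) : Set (Fin n → ℝ) :=
  Set.Icc (fun k => (cell n i k : ℝ) / n) (fun _ => 1)

theorem prod_one_sub (hn : 1 ≤ n) :
    ∏ j ∈ range n, (1 - (j : ℝ) / n) = (n.factorial : ℝ) / n ^ n := by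
  have hn' : (n : ℝ) ≠ 0 := by positivity
  have h1 : ∀ j ∈ range n, 1 - (j : ℝ) / n = ((n - j : ℕ) : ℝ) / n := by
    intro j hj
    rw [Nat.cast_sub (mem_range.mp hj).le]
    field_simp
  rw [prod_congr rfl h1, prod_div_distrib, prod_const, card_range]
  congr 1
  rw [← Nat.cast_prod, ← Finset.prod_range_reflect, ← Finset.prod_range_add_one_eq_factorial]
  congr 1
  apply prod_congr rfl
  intro j hj
  have := mem_range.mp hj
  omega

theorem volume_latinBox (i : Fin n) :
    volume (latinBox n i) = ENNReal.ofReal ((n.factorial : ℝ) / n ^ n) := by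
  have hn : 1 ≤ n := Fin.pos i
  have hn' : (0 : ℝ) < n := by exact_mod_cast hn
  unfold latinBox
  rw [Real.volume_Icc_pi, ← ENNReal.ofReal_prod_of_nonneg]
  · rw [← prod_one_sub hn, ← prod_cell i (fun j => 1 - (j : ℝ) / n)]
  · intro k _
    have := cell_lt i k
    have h2 : (cell n i k : ℝ) < n := by exact_mod_cast this
    rw [sub_nonneg, div_le_one hn']
    exact h2.le

theorem latin_eq_zero {x : Fin n → ℝ} (hx : x ∈ cube n) (h : ∀ i, x ∉ latinBox n i) :
    latin n x = 0 := by
  unfold latin
  rw [sum_eq_zero, mul_zero]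
  intro i _
  have hn : 1 ≤ n := Fin.pos i
  have hn' : (0 : ℝ) < n := by exact_mod_cast hn
  have h1 : ∃ k, x k < (cell n i k : ℝ) / n := by
    by_contra hcon
    push Not at hcon
    exact h i ⟨fun k => hcon k, fun k => (hx k).2⟩
  obtain ⟨k, hk⟩ := h1
  apply prod_eq_zero (mem_univ k)
  apply clamp_of_nonpos
  rw [lt_div_iff₀ hn'] at hk
  linarith

/-- lower bound for `s_n` -/
theorem lower_bound (hn : 1 ≤ n) :
    1 - (n.factorial : ℝ) / n ^ (n - 1) ≤ (maxAgreement n).toReal := by
  have hn' : (0 : ℝ) < n := by exact_mod_cast hn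
  set A : Set (Fin n → ℝ) := cube n \ ⋃ i, latinBox n i with hA
  have hmeas : MeasurableSet (⋃ i, latinBox n i) := MeasurableSet.iUnion fun i => measurableSet_Icc
  have hvol : volume (⋃ i, latinBox n i) ≤ ENNReal.ofReal ((n.factorial : ℝ) / n ^ (n - 1)) := by
    refine (measure_iUnion_fintype_le _ _).trans ?_
    simp only [volume_latinBox]
    rw [sum_const, card_univ, Fintype.card_fin, nsmul_eq_mul, ← ENNReal.ofReal_natCast,
      ← ENNReal.ofReal_mul (by positivity)]
    apply ENNReal.ofReal_le_ofReal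
    apply le_of_eq
    have : (n : ℝ) ^ n = n * n ^ (n - 1) := by
      rw [← pow_succ', Nat.sub_add_cancel hn]
    rw [this]
    field_simp
  have h1 : volume A ≤ maxAgreement n := by
    apply le_sSup
    refine ⟨A, Set.diff_subset, isClosed_cube.measurableSet.diff hmeas,
      ⟨latin n, isCopula_latin hn, ?_⟩, rfl⟩
    rintro x ⟨hx, hx'⟩
    have h0 : latin n x = 0 := latin_eq_zero hx fun i hi => hx' (Set.mem_iUnion.mpr ⟨i, hi⟩)
    refine le_antisymm ?_ (lowerFrechet_le hn (isCopula_latin hn) hx)
    rw [h0]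
    exact le_max_right _ _
  have h2 : volume (cube n) ≤ volume A + volume (⋃ i, latinBox n i) := by
    refine (measure_mono ?_).trans (measure_union_le _ _)
    intro x hx
    by_cases h : x ∈ ⋃ i, latinBox n i
    · exact Or.inr h
    · exact Or.inl ⟨hx, h⟩
  rw [volume_cube] at h2
  have h3 : (1 : ENNReal) ≤ maxAgreement n + ENNReal.ofReal ((n.factorial : ℝ) / n ^ (n - 1)) :=
    h2.trans (add_le_add h1 hvol)
  have h4 := ENNReal.toReal_mono (ENNReal.add_ne_top.mpr
    ⟨maxAgreement_ne_top, ENNReal.ofReal_ne_top⟩) h3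
  rw [ENNReal.toReal_add maxAgreement_ne_top ENNReal.ofReal_ne_top,
    ENNReal.toReal_ofReal (by positivity)] at h4
  simp only [ENNReal.toReal_one] at h4
  linarith

end Pool.Agent.Helper3.Cop
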