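import Pool.Agent.Helper3.Cop.Basic

set_option autoImplicit false

namespace Pool.Agent.Helper3.Cop

open MeasureTheory Finset Pool.Agent.Helper43.Copula

/-- the corner simplex -/
def simplex (n : ℕ) (t : ℝ) : Set (Fin n → ℝ) := {y | (∀ k, 0 ≤ y k) ∧ ∑ k, y k < t}

theorem measurableSet_simplex (n : ℕ) (t : ℝ) : MeasurableSet (simplex n t) := by
  have : simplex n t = (⋂ k : Fin n, {y | 0 ≤ y k}) ∩ {y | ∑ k, y k < t} := by
    ext y; simp [simplex]
  rw [this]
  refine MeasurableSet.inter ?_ ?_
  · exact MeasurableSet.iInter fun k => measurableSet_le measurable_const (measurable_pi_apply k)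
  · exact measurableSet_lt (by fun_prop) measurable_const

theorem volume_simplex (n : ℕ) : ∀ t : ℝ, 0 ≤ t →
    volume (simplex n t) ≤ ENNReal.ofReal (t ^ n / n.factorial) := by
  induction n with
  | zero =>
    intro t _
    refine (measure_mono (Set.subset_univ _)).trans ?_
    simp [volume_pi]
  | succ n ih =>
    intro t ht
    have hmp := volume_preserving_piFinSuccAbove (fun _ : Fin (n + 1) => ℝ) 0
    have h1 : volume (simplex (n + 1) t) =
        (volume : Measure (ℝ × (Fin n → ℝ))) {q | 0 ≤ q.1 ∧ q.2 ∈ simplex n (t - q.1)} := by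
      rw [← hmp.measure_preimage_equiv]
      congr 1
      ext y
      have e : (MeasurableEquiv.piFinSuccAbove (fun _ : Fin (n + 1) => ℝ) 0) y =
          (y 0, fun k => y k.succ) := by
        ext
        · rfl
        · simp [MeasurableEquiv.piFinSuccAbove, Fin.tail]
      simp only [simplex, Set.mem_ofPred_eq, Set.mem_preimage, e, Fin.sum_univ_succ]
      constructor
      · rintro ⟨h2, h3⟩
        exact ⟨h2 0, fun k => h2 k.succ, by linarith⟩
      · rintro ⟨h2, h3, h4⟩
        exact ⟨fun k => Fin.cases h2 h3 k, by linarith⟩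
    have hmeas : MeasurableSet {q : ℝ × (Fin n → ℝ) | 0 ≤ q.1 ∧ q.2 ∈ simplex n (t - q.1)} := by
      have : {q : ℝ × (Fin n → ℝ) | 0 ≤ q.1 ∧ q.2 ∈ simplex n (t - q.1)} =
          {q | 0 ≤ q.1} ∩ ((⋂ k : Fin n, {q | 0 ≤ q.2 k}) ∩ {q | ∑ k, q.2 k < t - q.1}) := by
        ext q; simp [simplex]
      rw [this]
      refine (measurableSet_le measurable_const measurable_fst).inter
        ((MeasurableSet.iInter fun k => measurableSet_le measurable_const ?_).inter
        (measurableSet_lt ?_ ?_))
      · exact (measurable_pi_apply k).comp measurable_snd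
      · fun_prop
      · fun_prop
    rw [h1, Measure.volume_eq_prod, Measure.prod_apply hmeas]
    have h2 : ∀ a : ℝ, volume (Prod.mk a ⁻¹' {q : ℝ × (Fin n → ℝ) | 0 ≤ q.1 ∧
        q.2 ∈ simplex n (t - q.1)}) ≤
        (Set.Icc (0 : ℝ) t).indicator
          (fun a => ENNReal.ofReal ((t - a) ^ n / n.factorial)) a := by
      intro a
      by_cases ha : a ∈ Set.Icc (0 : ℝ) t
      · rw [Set.indicator_of_mem ha]
        refine le_trans (measure_mono ?_) (ih (t - a) (by linarith [ha.2]))
        rintro y ⟨-, hy⟩
        exact hy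
      · rw [Set.indicator_of_notMem ha]
        have : Prod.mk a ⁻¹' {q : ℝ × (Fin n → ℝ) | 0 ≤ q.1 ∧ q.2 ∈ simplex n (t - q.1)} = ∅ := by
          ext y
          simp only [Set.mem_preimage, Set.mem_ofPred_eq, Set.mem_empty_iff_false, iff_false,
            simplex, not_and]
          intro ha0 hy0 hy
          apply ha
          refine ⟨ha0, ?_⟩
          have : 0 ≤ ∑ k, y k := sum_nonneg fun k _ => hy0 k
          linarith
        rw [this]
        simp
    refine (lintegral_mono h2).trans ?_
    rw [lintegral_indicator measurableSet_Icc]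
    have h3 : ∫⁻ a in Set.Icc (0 : ℝ) t, ENNReal.ofReal ((t - a) ^ n / n.factorial) =
        ENNReal.ofReal (∫ a in Set.Icc (0 : ℝ) t, (t - a) ^ n / n.factorial) := by
      rw [ofReal_integral_eq_lintegral_ofReal]
      · apply ContinuousOn.integrableOn_Icc
        fun_prop
      · filter_upwards [ae_restrict_mem measurableSet_Icc] with a ha
        have : 0 ≤ t - a := by linarith [ha.2]
        positivity
    rw [h3]
    apply ENNReal.ofReal_le_ofReal
    apply le_of_eq
    rw [integral_Icc_eq_integral_Ioc, ← intervalIntegral.integral_of_le ht]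
    have h4 : ∫ a in (0 : ℝ)..t, (t - a) ^ n / (n.factorial : ℝ) =
        ∫ a in (0 : ℝ)..t, a ^ n / (n.factorial : ℝ) := by
      have := intervalIntegral.integral_comp_sub_left (a := 0) (b := t)
        (fun a => a ^ n / (n.factorial : ℝ)) t
      simpa using this
    rw [h4, intervalIntegral.integral_div, integral_pow]
    rw [Nat.factorial_succ]
    push_cast
    field_simp
    simp

end Pool.Agent.Helper3.Cop
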