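import Pool.Agent.Helper3.Cop.Upper
import Pool.Agent.Helper3.Cop.Simplex
import Pool.Agent.Helper3.Cop.Latin

set_option autoImplicit false

namespace Pool.Agent.Helper3.Cop

open MeasureTheory Finset Filter Topology Pool.Agent.Helper43.Copula

variable {n : ℕ}

/-- where the copula is positive -/
def posSet (n : ℕ) (C : (Fin n → ℝ) → ℝ) : Set (Fin n → ℝ) := {x | x ∈ cube n ∧ 0 < C x}

theorem measurableSet_posSet {C : (Fin n → ℝ) → ℝ} (hC : IsCopula n C) :
    MeasurableSet (posSet n C) := by
  have h1 : IsClosed {x | x ∈ cube n ∧ C x ≤ 0} :=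
    (continuousOn_copula hC).preimage_isClosed_of_isClosed isClosed_cube isClosed_Iic
  have h2 : posSet n C = cube n \ {x | x ∈ cube n ∧ C x ≤ 0} := by
    ext x
    simp only [posSet, Set.mem_ofPred_eq, Set.mem_sdiff, not_and, not_le]
    constructor
    · rintro ⟨h3, h4⟩; exact ⟨h3, fun _ => h4⟩
    · rintro ⟨h3, h4⟩; exact ⟨h3, h4 h3⟩
  rw [h2]
  exact isClosed_cube.measurableSet.diff h1.measurableSet

theorem posSet_subset (C : (Fin n → ℝ) → ℝ) : posSet n C ⊆ cube n := fun _ hx => hx.1

theorem volume_posSet_ne_top (C : (Fin n → ℝ) → ℝ) : volume (posSet n C) ≠ ⊤ := by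
  refine ne_top_of_le_ne_top ?_ (measure_mono (posSet_subset C))
  rw [volume_cube]; simp

/-- a copula is positive on a set of volume at least `exp (-n)` -/
theorem exp_le_volume (hn : 1 ≤ n) {C : (Fin n → ℝ) → ℝ} (hC : IsCopula n C) :
    Real.exp (-(n : ℝ)) ≤ (volume (posSet n C)).toReal := by
  set v : ℝ := (volume (posSet n C)).toReal with hv
  have hv0 : 0 ≤ v := ENNReal.toReal_nonneg
  have h1 : ∀ p ∈ cube n, 0 < C p → ∏ k, (1 - p k) ≤ v := by
    intro p hp hCp
    have h2 : Set.Icc p (fun _ => 1) ⊆ posSet n C := by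
      rintro x ⟨hx1, hx2⟩
      have hx : x ∈ cube n := fun k => ⟨(hp k).1.trans (hx1 k), hx2 k⟩
      exact ⟨hx, lt_of_lt_of_le hCp (copula_mono hC hp hx hx1)⟩
    have h3 := measure_mono (μ := volume) h2
    rw [Real.volume_Icc_pi, ← ENNReal.ofReal_prod_of_nonneg
      (fun k _ => sub_nonneg.mpr (hp k).2)] at h3
    exact (ENNReal.ofReal_le_iff_le_toReal (volume_posSet_ne_top C)).mp h3
  by_contra hcon
  push Not at hcon
  -- choose `M > n` with `v ≤ exp (-M)`
  obtain ⟨M, hM1, hM2⟩ : ∃ M : ℝ, (n : ℝ) < M ∧ v ≤ Real.exp (-M) := by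
    rcases hv0.eq_or_lt with h0 | h0
    · exact ⟨n + 1, by linarith, by rw [← h0]; positivity⟩
    · refine ⟨-Real.log v, ?_, by rw [neg_neg, Real.exp_log h0]⟩
      have := Real.log_lt_log h0 hcon
      rw [Real.log_exp] at this
      linarith
  have hM0 : 0 ≤ M := le_trans (by positivity) hM1.le
  have := main_ineq hn hC hM0 (fun p hp hCp => (h1 p hp hCp).trans hM2)
  linarith

/-- upper bound for the volume of the agreement set -/
theorem volume_agree_le (hn : 1 ≤ n) {C : (Fin n → ℝ) → ℝ} (hC : IsCopula n C)
    {A : Set (Fin n → ℝ)} (hA : A ⊆ cube n) (hAC : ∀ x ∈ A, C x = lowerFrechet n x) :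
    volume A ≤ ENNReal.ofReal (1 - Real.exp (-(n : ℝ)) + 1 / n.factorial) := by
  -- the set where the Frechet bound is positive
  set S : Set (Fin n → ℝ) := (fun x => (fun _ => 1) - x) ⁻¹' simplex n 1 with hS
  have hSvol : volume S ≤ ENNReal.ofReal (1 / n.factorial) := by
    have h1 : volume S = volume (simplex n 1) := by
      rw [hS]
      exact (Measure.measurePreserving_sub_left volume (fun _ : Fin n => (1 : ℝ))).measure_preimage
        (measurableSet_simplex n 1).nullMeasurableSet
    rw [h1]
    have := volume_simplex n 1 zero_le_one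
    simpa using this
  have hsub : A ⊆ (cube n \ posSet n C) ∪ S := by
    intro x hx
    by_cases hpos : 0 < C x
    · right
      have h1 := hAC x hx
      rw [h1] at hpos
      unfold lowerFrechet at hpos
      have h2 : 0 < ∑ k, x k - n + 1 := by
        by_contra hc
        push Not at hc
        rw [max_eq_right hc] at hpos
        exact lt_irrefl _ hpos
      refine ⟨fun k => ?_, ?_⟩
      · have := (hA hx k).2
        simpa using this
      · simp only [Pi.sub_apply, sum_sub_distrib]
        simp
        linarith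
    · left
      exact ⟨hA hx, fun h => hpos h.2⟩
  have h1 : volume (cube n \ posSet n C) ≤ ENNReal.ofReal (1 - Real.exp (-(n : ℝ))) := by
    rw [measure_sdiff (posSet_subset C) (measurableSet_posSet hC).nullMeasurableSet
      (volume_posSet_ne_top C), volume_cube, ENNReal.ofReal_sub _ (Real.exp_pos _).le,
      ENNReal.ofReal_one]
    apply tsub_le_tsub_left
    rw [← ENNReal.ofReal_toReal (volume_posSet_ne_top C)]
    exact ENNReal.ofReal_le_ofReal (exp_le_volume hn hC)
  calc volume A ≤ volume ((cube n \ posSet n C) ∪ S) := measure_mono hsub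
    _ ≤ volume (cube n \ posSet n C) + volume S := measure_union_le _ _
    _ ≤ ENNReal.ofReal (1 - Real.exp (-(n : ℝ))) + ENNReal.ofReal (1 / n.factorial) :=
        add_le_add h1 hSvol
    _ = _ := by
        rw [← ENNReal.ofReal_add _ (by positivity)]
        have : Real.exp (-(n : ℝ)) ≤ 1 := Real.exp_le_one_iff.mpr (by simp)
        linarith

theorem upper_bound (hn : 1 ≤ n) :
    (maxAgreement n).toReal ≤ 1 - Real.exp (-(n : ℝ)) + 1 / n.factorial := by
  have h0 : 0 ≤ 1 - Real.exp (-(n : ℝ)) + 1 / (n.factorial : ℝ) := by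
    have : Real.exp (-(n : ℝ)) ≤ 1 := Real.exp_le_one_iff.mpr (by simp)
    have : (0 : ℝ) ≤ 1 / (n.factorial : ℝ) := by positivity
    linarith
  have h1 : maxAgreement n ≤ ENNReal.ofReal (1 - Real.exp (-(n : ℝ)) + 1 / n.factorial) := by
    unfold maxAgreement
    apply sSup_le
    rintro m ⟨A, hA, -, ⟨C, hC, hCA⟩, rfl⟩
    exact volume_agree_le hn hC hA hCA
  have h2 := ENNReal.toReal_mono ENNReal.ofReal_ne_top h1
  rwa [ENNReal.toReal_ofReal h0] at h2

/-- `W` is not a copula for `n ≥ 3` -/
theorem not_isCopula_lowerFrechet (hn : 3 ≤ n) : ¬ IsCopula n (lowerFrechet n) := by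
  intro h
  have hu : (fun _ => 1 / 2 : Fin n → ℝ) ∈ cube n := fun _ => by norm_num
  have hinc := h.increasing _ hu _ (one_mem_cube (n := n)) (fun _ => by norm_num)
  -- compute the volume
  have hval : ∀ s : Finset (Fin n), lowerFrechet n (vertex (fun _ => 1 / 2) 1 s) =
      if s.card = n then 1 else if s.card = n - 1 then 1 / 2 else 0 := by
    intro s
    have hsum : ∑ k, vertex (fun _ => 1 / 2) 1 s k = s.card + (n - s.card : ℝ) / 2 := by
      unfold vertex
      rw [sum_ite, sum_const, filter_mem_eq_inter, univ_inter]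
      simp only [Pi.one_apply, sum_const, nsmul_eq_mul, mul_one]
      have : (univ.filter (fun k => k ∉ s)).card = n - s.card := by
        rw [← compl_filter, filter_mem_eq_inter, univ_inter, card_compl, Fintype.card_fin]
      rw [this, Nat.cast_sub (by simpa using card_le_univ s)]
      ring
    unfold lowerFrechet
    rw [hsum]
    have hle : s.card ≤ n := by simpa using card_le_univ s
    split_ifs with h1 h2
    · rw [h1]; simp
    · have h3 : (s.card : ℝ) = n - 1 := by
        rw [h2, Nat.cast_sub (by omega)]; simp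
      rw [h3]
      rw [max_eq_left (by linarith)]
      ring
    · apply max_eq_right
      have h3 : s.card + 2 ≤ n := by omega
      have h4 : (s.card : ℝ) + 2 ≤ n := by exact_mod_cast h3
      linarith
  unfold boxVolume at hinc
  simp_rw [hval] at hinc
  have hsum : ∑ s : Finset (Fin n), (-1 : ℝ) ^ (n - s.card) *
      (if s.card = n then 1 else if s.card = n - 1 then 1 / 2 else 0) = 1 - n / 2 := by
    have h1 : ∑ s : Finset (Fin n), (-1 : ℝ) ^ (n - s.card) *
      (if s.card = n then 1 else if s.card = n - 1 then 1 / 2 else 0) =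
      ∑ j ∈ range (n + 1), (n.choose j : ℝ) * ((-1 : ℝ) ^ (n - j) *
        (if j = n then 1 else if j = n - 1 then 1 / 2 else 0)) := by
      have := Finset.sum_powerset_apply_card (fun j => (-1 : ℝ) ^ (n - j) *
        (if j = n then 1 else if j = n - 1 then 1 / 2 else 0)) (x := (univ : Finset (Fin n)))
      rw [powerset_univ] at this
      rw [this]
      simp [nsmul_eq_mul]
    rw [h1, sum_range_succ]
    have h2 : n - 1 + 1 = n := by omega
    rw [← h2, sum_range_succ]
    rw [sum_eq_zero]
    · have h3 : (n - 1 + 1).choose (n - 1) = n := by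
        rw [Nat.choose_succ_self_right, h2]
      rw [h3]
      have h4 : n - 1 + 1 - (n - 1) = 1 := by omega
      rw [h4, h2]
      simp
      rw [if_neg (by omega)]
      ring
    · intro j hj
      have := mem_range.mp hj
      rw [if_neg (by omega), if_neg (by omega)]
      simp
  rw [hsum] at hinc
  have : (3 : ℝ) ≤ n := by exact_mod_cast hn
  linarith

/-- `s_n < 1` for `n ≥ 3` -/
theorem lt_one (hn : 3 ≤ n) : (maxAgreement n).toReal < 1 := by
  obtain ⟨C, hC, hvol⟩ := attained n
  have h1 := maxAgreement_le_one (n := n)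
  rcases h1.lt_or_eq with h2 | h2
  · have := (ENNReal.toReal_lt_toReal maxAgreement_ne_top (by simp)).mpr h2
    simpa using this
  exfalso
  rw [h2] at hvol
  apply not_isCopula_lowerFrechet hn
  refine hC.congr fun x hx => ?_
  -- the agreement set is closed and of full measure in the cube
  by_contra hne
  have hcl : IsClosed (agree n C) := isClosed_agree hC
  -- `x` lies in the closure of the interior of the cube
  have hint : x ∈ closure (interior (cube n)) := by
    have hconv : Convex ℝ (cube n) := by
      rw [cube_eq_pi]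
      exact convex_pi fun _ _ => convex_Icc 0 1
    have hne : (interior (cube n)).Nonempty := by
      rw [cube_eq_pi, interior_pi_set Set.finite_univ]
      exact ⟨fun _ => 1 / 2, fun k _ => by
        rw [interior_Icc]; constructor <;> norm_num⟩
    rw [hconv.closure_interior_eq_closure_of_nonempty_interior hne, isClosed_cube.closure_eq]
    exact hx
  have hopen : IsOpen (interior (cube n) ∩ (agree n C)ᶜ) := isOpen_interior.inter hcl.isOpen_compl
  have hx' : x ∈ (agree n C)ᶜ := fun h => hne h.2.symm
  have hnon : (interior (cube n) ∩ (agree n C)ᶜ).Nonempty := by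
    have := mem_closure_iff.mp hint _ hcl.isOpen_compl hx'
    rwa [Set.inter_comm] at this
  have hpos := hopen.measure_pos volume hnon
  have hadd : volume (agree n C) + volume (interior (cube n) ∩ (agree n C)ᶜ) ≤ volume (cube n) := by
    rw [← measure_union _ hopen.measurableSet]
    · apply measure_mono
      rintro y (hy | hy)
      · exact hy.1
      · exact interior_subset hy.1
    · rw [Set.disjoint_left]
      rintro y hy hy'
      exact hy'.2 hy
  rw [volume_cube] at hadd
  change volume (agree n C) = 1 at hvol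
  rw [hvol] at hadd
  have h3 : (1 : ENNReal) + 0 < 1 + volume (interior (cube n) ∩ (agree n C)ᶜ) :=
    ENNReal.add_lt_add_left (by simp) hpos
  rw [add_zero] at h3
  exact absurd hadd (not_le.mpr h3)

end Pool.Agent.Helper3.Cop
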