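import Mathlib
import Pool.Agent.Helper43.Copula
import Pool.Agent.Helper43.CopulaCompact

set_option autoImplicit false

namespace Pool.Agent.Helper3.Cop

open MeasureTheory Finset Pool.Agent.Helper43.Copula

variable {n : ℕ}

theorem boxVolume_prod (F : Fin n → ℝ → ℝ) (u v : Fin n → ℝ) :
    boxVolume (fun x => ∏ k, F k (x k)) u v = ∏ k, (F k (v k) - F k (u k)) := by
  unfold boxVolume
  have := Finset.prod_add (fun k => F k (v k)) (fun k => - F k (u k)) (univ : Finset (Fin n))
  simp only [← sub_eq_add_neg] at this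
  rw [this, powerset_univ]
  refine sum_congr rfl fun s _ => ?_
  have h2 : ∏ k, F k (vertex u v s k) = (∏ k ∈ s, F k (v k)) * ∏ k ∈ univ \ s, F k (u k) := by
    rw [← prod_sdiff (subset_univ s), mul_comm]
    congr 1
    · refine prod_congr rfl fun k hk => ?_
      simp [vertex, hk]
    · refine prod_congr rfl fun k hk => ?_
      simp only [Finset.mem_sdiff, Finset.mem_univ, true_and] at hk
      simp [vertex, hk]
  change (-1 : ℝ) ^ (n - #s) * ∏ k, F k (vertex u v s k) = _
  rw [h2, prod_neg]
  have h3 : #(univ \ s) = n - #s := by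
    rw [card_univ_sdiff, Fintype.card_fin]
  rw [h3]
  ring

theorem boxVolume_sum {ι : Type*} (t : Finset ι) (G : ι → (Fin n → ℝ) → ℝ) (c : ℝ)
    (u v : Fin n → ℝ) :
    boxVolume (fun x => c * ∑ i ∈ t, G i x) u v = c * ∑ i ∈ t, boxVolume (G i) u v := by
  unfold boxVolume
  rw [mul_sum]
  simp_rw [mul_sum]
  rw [sum_comm]
  refine sum_congr rfl fun s _ => sum_congr rfl fun i _ => ?_
  ring

theorem copula_one (hn : 1 ≤ n) {C : (Fin n → ℝ) → ℝ} (hC : IsCopula n C) :
    C (fun _ => 1) = 1 := by
  have := hC.margin (fun _ => 1) (fun _ => by simp) ⟨0, hn⟩ (fun _ _ => rfl)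
  simpa using this

theorem lowerFrechet_le (hn : 1 ≤ n) {C : (Fin n → ℝ) → ℝ} (hC : IsCopula n C)
    {x : Fin n → ℝ} (hx : x ∈ cube n) : lowerFrechet n x ≤ C x := by
  unfold lowerFrechet
  refine max_le ?_ (hC.range x hx).1
  have h1 := lip hC (x := fun _ => 1) (y := x) one_mem_cube hx
  rw [copula_one hn hC] at h1
  have h2 : ∑ i, |(1 : ℝ) - x i| = n - ∑ i, x i := by
    rw [sum_congr rfl (fun i _ => abs_of_nonneg (sub_nonneg.mpr (hx i).2)), sum_sub_distrib]
    simp
  rw [h2] at h1
  have := le_abs_self (1 - C x)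
  linarith

theorem copula_mono {C : (Fin n → ℝ) → ℝ} (hC : IsCopula n C) {x y : Fin n → ℝ}
    (hx : x ∈ cube n) (hy : y ∈ cube n) (hxy : ∀ k, x k ≤ y k) : C x ≤ C y := by
  have key : ∀ T : Finset (Fin n), C x ≤ C (vertex x y T) := by
    intro T
    induction T using Finset.induction_on with
    | empty =>
      have : vertex x y ∅ = x := by ext k; simp [vertex]
      rw [this]
    | insert j T hj ih =>
      refine ih.trans ?_
      have hm : vertex x y T ∈ cube n := vertex_mem_cube hx hy T
      have e1 : Function.update (vertex x y T) j (x j) = vertex x y T := by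
        ext k
        rcases eq_or_ne k j with rfl | h
        · simp [vertex, hj]
        · simp [h]
      have e2 : Function.update (vertex x y T) j (y j) = vertex x y (insert j T) := by
        ext k
        rcases eq_or_ne k j with rfl | h
        · simp [vertex]
        · simp [vertex, h]
      have := mono_coord hC hm j (hx j).1 (hxy j) (hy j).2
      rwa [e1, e2] at this
  have h1 := key univ
  rwa [vertex_univ] at h1

theorem maxAgreement_le_one : maxAgreement n ≤ 1 := by
  unfold maxAgreement
  apply sSup_le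
  rintro m ⟨A, hA, -, -, rfl⟩
  rw [← volume_cube (n := n)]
  exact measure_mono hA

theorem maxAgreement_ne_top : maxAgreement n ≠ ⊤ :=
  ne_top_of_le_ne_top (by simp) maxAgreement_le_one

end Pool.Agent.Helper3.Cop
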