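import Pool.Agent.Helper3.Cop.Basic

set_option autoImplicit false

namespace Pool.Agent.Helper3.Cop

open MeasureTheory Finset Pool.Agent.Helper43.Copula

variable {n : ℕ}

/-- grid point -/
noncomputable def gp (N : ℕ) (r : Fin n → ℕ) : Fin n → ℝ := fun k => (r k : ℝ) / N

/-- indicator -/
def ind (a b : ℕ) : ℝ := if a = b then 1 else 0

theorem sum_prod_ind (N : ℕ) (c : Fin n → ℕ) (hc : ∀ k, c k ≤ N) (G : (Fin n → ℕ) → ℝ) :
    ∑ r ∈ Fintype.piFinset (fun _ : Fin n => range (N + 1)), (∏ k, ind (r k) (c k)) * G r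
      = G c := by
  rw [Finset.sum_eq_single c]
  · simp [ind]
  · intro r _ hr
    have : ∃ k, r k ≠ c k := by
      by_contra hcon
      push Not at hcon
      exact hr (funext hcon)
    obtain ⟨k, hk⟩ := this
    rw [prod_eq_zero (mem_univ k) (by simp [ind, hk]), zero_mul]
  · intro h
    exfalso
    apply h
    rw [Fintype.mem_piFinset]
    intro k
    have := hc k
    simp; omega

/-- expansion of the volume of a grid box -/
theorem boxVolume_grid (C : (Fin n → ℝ) → ℝ) (N : ℕ) (a b : Fin n → ℕ) (ha : ∀ k, a k ≤ N)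
    (hb : ∀ k, b k ≤ N) :
    boxVolume C (gp N a) (gp N b) =
      ∑ r ∈ Fintype.piFinset (fun _ : Fin n => range (N + 1)),
        (∏ k, (ind (r k) (b k) - ind (r k) (a k))) * C (gp N r) := by
  have h1 : ∀ r : Fin n → ℕ, ∏ k, (ind (r k) (b k) - ind (r k) (a k)) =
      ∑ s : Finset (Fin n), (-1 : ℝ) ^ (n - s.card) *
        ∏ k, ind (r k) (if k ∈ s then b k else a k) := by
    intro r
    have := Finset.prod_add (fun k => ind (r k) (b k)) (fun k => - ind (r k) (a k))
      (univ : Finset (Fin n))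
    simp only [← sub_eq_add_neg] at this
    rw [this, powerset_univ]
    refine sum_congr rfl fun s _ => ?_
    have h2 : ∏ k, ind (r k) (if k ∈ s then b k else a k) =
        (∏ k ∈ s, ind (r k) (b k)) * ∏ k ∈ univ \ s, ind (r k) (a k) := by
      rw [← prod_sdiff (subset_univ s), mul_comm]
      congr 1
      · refine prod_congr rfl fun k hk => ?_
        simp [hk]
      · refine prod_congr rfl fun k hk => ?_
        simp only [Finset.mem_sdiff, Finset.mem_univ, true_and] at hk
        simp [hk]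
    rw [h2, prod_neg]
    have h3 : #(univ \ s) = n - #s := by
      rw [card_univ_sdiff, Fintype.card_fin]
    rw [h3]
    ring
  simp_rw [h1, sum_mul]
  rw [sum_comm]
  unfold boxVolume
  refine sum_congr rfl fun s _ => ?_
  have h4 := sum_prod_ind N (fun k => if k ∈ s then b k else a k)
    (by intro k; split_ifs; exacts [hb k, ha k]) (fun r => C (gp N r))
  have h5 : vertex (gp N a) (gp N b) s = gp N (fun k => if k ∈ s then b k else a k) := by
    ext k
    simp only [vertex, gp]
    split_ifs <;> rfl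
  rw [h5, ← h4, mul_sum]
  refine sum_congr rfl fun r _ => ?_
  ring

theorem sum_ind_tele (x a b : ℕ) (hab : a ≤ b) :
    ∑ j ∈ Ico a b, (ind x (j + 1) - ind x j) = ind x b - ind x a := by
  exact Finset.sum_Ico_sub (fun j => ind x j) hab

/-- the cells contained in a grid box -/
theorem sum_cells (C : (Fin n → ℝ) → ℝ) (N : ℕ) (a b : Fin n → ℕ) (hab : ∀ k, a k ≤ b k)
    (hb : ∀ k, b k ≤ N) :
    ∑ j ∈ Fintype.piFinset (fun k : Fin n => Ico (a k) (b k)),
      boxVolume C (gp N j) (gp N (fun k => j k + 1)) = boxVolume C (gp N a) (gp N b) := by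
  have h1 : ∀ j ∈ Fintype.piFinset (fun k : Fin n => Ico (a k) (b k)),
      boxVolume C (gp N j) (gp N (fun k => j k + 1)) =
        ∑ r ∈ Fintype.piFinset (fun _ : Fin n => range (N + 1)),
        (∏ k, (ind (r k) (j k + 1) - ind (r k) (j k))) * C (gp N r) := by
    intro j hj
    rw [Fintype.mem_piFinset] at hj
    apply boxVolume_grid
    · intro k
      have := mem_Ico.mp (hj k)
      have := hb k
      omega
    · intro k
      have := mem_Ico.mp (hj k)
      have := hb k
      omega
  rw [sum_congr rfl h1, sum_comm, boxVolume_grid C N a b (fun k => (hab k).trans (hb k)) hb]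
  refine sum_congr rfl fun r _ => ?_
  rw [← sum_mul]
  congr 1
  rw [← Finset.prod_univ_sum (fun k : Fin n => Ico (a k) (b k))
    (fun k j => ind (r k) (j + 1) - ind (r k) j)]
  exact prod_congr rfl fun k _ => sum_ind_tele _ _ _ (hab k)

theorem gp_mem_cube {N : ℕ} (hN : 1 ≤ N) {r : Fin n → ℕ} (hr : ∀ k, r k ≤ N) :
    gp N r ∈ cube n := by
  intro k
  have hN' : (0 : ℝ) < N := by exact_mod_cast hN
  refine ⟨by unfold gp; positivity, ?_⟩
  unfold gp
  rw [div_le_one hN']
  exact_mod_cast hr k

/-- mass of the cell `j` -/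
noncomputable def mass (C : (Fin n → ℝ) → ℝ) (N : ℕ) (j : Fin n → ℕ) : ℝ :=
  boxVolume C (gp N j) (gp N (fun k => j k + 1))

theorem mass_nonneg {C : (Fin n → ℝ) → ℝ} (hC : IsCopula n C) {N : ℕ} (hN : 1 ≤ N)
    {j : Fin n → ℕ} (hj : ∀ k, j k < N) : 0 ≤ mass C N j := by
  refine hC.increasing _ (gp_mem_cube hN fun k => (hj k).le) _ (gp_mem_cube hN hj) ?_
  intro k
  unfold gp
  have hN' : (0 : ℝ) < N := by exact_mod_cast hN
  apply div_le_div_of_nonneg_right _ hN'.le
  push_cast
  linarith

/-- the volume of `[0, v]` -/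
theorem boxVolume_zero_left (hn : 1 ≤ n) {C : (Fin n → ℝ) → ℝ} (hC : IsCopula n C)
    {v : Fin n → ℝ} (hv : v ∈ cube n) : boxVolume C 0 v = C v := by
  rw [boxVolume_one hC zero_mem_cube hv ⟨0, hn⟩ (fun _ _ => rfl)]
  have : C (Function.update v ⟨0, hn⟩ ((0 : Fin n → ℝ) ⟨0, hn⟩)) = 0 := by
    apply hC.grounded
    · exact update_mem_cube hv _ le_rfl zero_le_one
    · exact ⟨⟨0, hn⟩, by simp⟩
  rw [this, sub_zero]

theorem gp_zero (N : ℕ) : gp N (fun _ : Fin n => 0) = 0 := by
  ext k; simp [gp]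

theorem sum_mass_le (hn : 1 ≤ n) {C : (Fin n → ℝ) → ℝ} (hC : IsCopula n C) {N : ℕ} (hN : 1 ≤ N)
    {b : Fin n → ℕ} (hb : ∀ k, b k ≤ N) :
    ∑ j ∈ Fintype.piFinset (fun k : Fin n => Ico 0 (b k)), mass C N j = C (gp N b) := by
  have := sum_cells C N (fun _ => 0) b (fun _ => Nat.zero_le _) hb
  unfold mass
  rw [this, gp_zero]
  exact boxVolume_zero_left hn hC (gp_mem_cube hN hb)

theorem mass_le (hn : 1 ≤ n) {C : (Fin n → ℝ) → ℝ} (hC : IsCopula n C) {N : ℕ} (hN : 1 ≤ N)
    {j : Fin n → ℕ} (hj : ∀ k, j k < N) : mass C N j ≤ C (gp N (fun k => j k + 1)) := by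
  rw [← sum_mass_le hn hC hN (b := fun k => j k + 1) hj]
  apply Finset.single_le_sum (f := fun j => mass C N j)
  · intro i hi
    rw [Fintype.mem_piFinset] at hi
    apply mass_nonneg hC hN
    intro k
    have := mem_Ico.mp (hi k)
    have := hj k
    omega
  · rw [Fintype.mem_piFinset]
    intro k
    rw [mem_Ico]
    omega

theorem sum_mass_slab (hn : 1 ≤ n) {C : (Fin n → ℝ) → ℝ} (hC : IsCopula n C) {N : ℕ}
    (hN : 1 ≤ N) (k : Fin n) {c : ℕ} (hc : c < N) :
    ∑ j ∈ Fintype.piFinset (fun _ : Fin n => range N) with j k = c, mass C N j = 1 / N := by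
  classical
  have hN' : (0 : ℝ) < N := by exact_mod_cast hN
  set a : Fin n → ℕ := fun l => if l = k then c else 0 with ha
  set b : Fin n → ℕ := fun l => if l = k then c + 1 else N with hb
  have h1 := sum_cells C N a b (by intro l; simp only [ha, hb]; split_ifs <;> omega)
    (by intro l; simp only [hb]; split_ifs <;> omega)
  have h2 : (Fintype.piFinset (fun _ : Fin n => range N)).filter (fun j => j k = c) =
      Fintype.piFinset (fun l : Fin n => Ico (a l) (b l)) := by
    ext j
    simp only [mem_filter, Fintype.mem_piFinset, mem_range, mem_Ico, ha, hb]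
    constructor
    · rintro ⟨h3, h4⟩ l
      split_ifs with hl
      · subst hl; omega
      · exact ⟨Nat.zero_le _, h3 l⟩
    · intro h3
      refine ⟨fun l => ?_, ?_⟩
      · have := h3 l
        split_ifs at this with hl
        · omega
        · exact this.2
      · have := h3 k
        simp only [if_true] at this
        omega
  rw [h2]
  change ∑ j ∈ Fintype.piFinset (fun l : Fin n => Ico (a l) (b l)),
    boxVolume C (gp N j) (gp N (fun k => j k + 1)) = _
  rw [h1]
  have hgb : gp N b ∈ cube n := gp_mem_cube hN (by intro l; simp only [hb]; split_ifs <;> omega)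
  have hga : gp N a ∈ cube n := gp_mem_cube hN (by intro l; simp only [ha]; split_ifs <;> omega)
  rw [boxVolume_one hC hga hgb k (by intro l hl; simp [gp, ha, hl])]
  rw [hC.margin _ hgb k (by intro l hl; simp [gp, hb, hl, hN'.ne']),
    hC.margin _ (update_mem_cube hgb k (hga k).1 (hga k).2) k
      (by intro l hl; rw [Function.update_of_ne hl]; simp [gp, hb, hl, hN'.ne'])]
  rw [Function.update_self]
  simp only [gp, ha, hb, if_true]
  push_cast
  field_simp
  ring

theorem sum_mass_total (hn : 1 ≤ n) {C : (Fin n → ℝ) → ℝ} (hC : IsCopula n C) {N : ℕ}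
    (hN : 1 ≤ N) : ∑ j ∈ Fintype.piFinset (fun _ : Fin n => range N), mass C N j = 1 := by
  have hN' : (0 : ℝ) < N := by exact_mod_cast hN
  have := sum_mass_le hn hC hN (b := fun _ => N) (fun _ => le_rfl)
  rw [Finset.range_eq_Ico, this]
  have h1 : gp N (fun _ : Fin n => N) = fun _ => 1 := by
    ext k; simp [gp, hN'.ne']
  rw [h1]
  exact copula_one hn hC

end Pool.Agent.Helper3.Cop
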