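import Pool.Agent.Helper3.Cop.Three

set_option autoImplicit false

namespace Pool.Agent.Helper3.Cop

open MeasureTheory Finset Pool.Agent.Helper43.Copula

/-- the closed box with corner `w` and side `1/3` -/
def bx (w : Fin 3 → ℝ) : Set (Fin 3 → ℝ) := Set.Icc w (fun k => w k + 1 / 3)

def pieceH (w : Fin 3 → ℝ) (i j : Fin 3) : Set (Fin 3 → ℝ) :=
  {x | x ∈ bx w ∧ w i + w j + 1 / 3 < x i + x j}

def pieceL (w : Fin 3 → ℝ) (i j : Fin 3) : Set (Fin 3 → ℝ) :=
  {x | x ∈ bx w ∧ x i + x j < w i + w j + 1 / 3}

def pieceA (w : Fin 3 → ℝ) (i j k : Fin 3) : Set (Fin 3 → ℝ) :=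
  {x | x ∈ bx w ∧ w i + w k + 1 / 3 < x i + x k ∧ w j + w k + 1 / 3 < x j + x k}

theorem volume_bx (w : Fin 3 → ℝ) : volume (bx w) = ENNReal.ofReal (1 / 27) := by
  unfold bx
  rw [Real.volume_Icc_pi, Fin.prod_univ_three, ← ENNReal.ofReal_mul (by norm_num),
    ← ENNReal.ofReal_mul (by norm_num)]
  congr 1
  ring

theorem measurableSet_pieceH (w : Fin 3 → ℝ) (i j : Fin 3) : MeasurableSet (pieceH w i j) :=
  measurableSet_Icc.inter (measurableSet_lt measurable_const
    ((measurable_pi_apply i).add (measurable_pi_apply j)))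

theorem measurableSet_pieceL (w : Fin 3 → ℝ) (i j : Fin 3) : MeasurableSet (pieceL w i j) :=
  measurableSet_Icc.inter (measurableSet_lt
    ((measurable_pi_apply i).add (measurable_pi_apply j)) measurable_const)

theorem measurableSet_pieceA (w : Fin 3 → ℝ) (i j k : Fin 3) : MeasurableSet (pieceA w i j k) :=
  measurableSet_Icc.inter ((measurableSet_lt measurable_const
    ((measurable_pi_apply i).add (measurable_pi_apply k))).inter
    (measurableSet_lt measurable_const ((measurable_pi_apply j).add (measurable_pi_apply k))))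

/-- point reflection exchanges the two halves -/
theorem reflect (w : Fin 3 → ℝ) (i j : Fin 3) :
    volume (pieceL w i j) = volume (pieceH w i j) := by
  have hmp := Measure.measurePreserving_sub_left volume (fun k : Fin 3 => 2 * w k + 1 / 3)
  rw [← hmp.measure_preimage (measurableSet_pieceH w i j).nullMeasurableSet]
  congr 1
  ext x
  simp only [pieceL, pieceH, bx, Set.mem_ofPred_eq, Set.mem_preimage, Set.mem_Icc, Pi.le_def,
    Pi.sub_apply]
  constructor
  · rintro ⟨⟨h1, h2⟩, h3⟩
    exact ⟨⟨fun k => by linarith [h2 k], fun k => by linarith [h1 k]⟩, by linarith⟩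
  · rintro ⟨⟨h1, h2⟩, h3⟩
    exact ⟨⟨fun k => by linarith [h2 k], fun k => by linarith [h1 k]⟩, by linarith⟩

theorem volume_half (w : Fin 3 → ℝ) (i j : Fin 3) :
    volume (pieceH w i j) ≤ ENNReal.ofReal (1 / 54) ∧
    volume (pieceL w i j) ≤ ENNReal.ofReal (1 / 54) := by
  have hdis : Disjoint (pieceH w i j) (pieceL w i j) := by
    rw [Set.disjoint_left]
    rintro x ⟨-, h1⟩ ⟨-, h2⟩
    linarith
  have h1 : volume (pieceH w i j) + volume (pieceL w i j) ≤ volume (bx w) := by
    rw [← measure_union hdis (measurableSet_pieceL w i j)]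
    apply measure_mono
    rintro x (h | h)
    · exact h.1
    · exact h.1
  rw [reflect, volume_bx] at h1
  have hfin : volume (pieceH w i j) ≠ ⊤ := by
    refine ne_top_of_le_ne_top ?_ (measure_mono (fun x hx => hx.1 : pieceH w i j ⊆ bx w))
    rw [volume_bx]; simp
  have h2 : volume (pieceH w i j) ≤ ENNReal.ofReal (1 / 54) := by
    rw [← ENNReal.ofReal_toReal hfin] at h1 ⊢
    rw [← ENNReal.ofReal_add ENNReal.toReal_nonneg ENNReal.toReal_nonneg] at h1
    apply ENNReal.ofReal_le_ofReal
    have := (ENNReal.ofReal_le_ofReal_iff (by norm_num)).mp h1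
    linarith
  exact ⟨h2, by rw [reflect]; exact h2⟩

/-- the minimum of the three local coordinates is attained at `k` only -/
def minAt (k : Fin 3) : Set (Fin 3 → ℝ) :=
  {y | (∀ l, 0 ≤ y l ∧ y l ≤ 1 / 3) ∧ ∀ l, l ≠ k → y k < y l}

theorem measurableSet_minAt (k : Fin 3) : MeasurableSet (minAt k) := by
  have : minAt k = (⋂ l : Fin 3, {y | 0 ≤ y l ∧ y l ≤ 1 / 3}) ∩
      ⋂ l : Fin 3, {y | l ≠ k → y k < y l} := by
    ext y; simp [minAt]
  rw [this]
  refine MeasurableSet.inter ?_ ?_
  · refine MeasurableSet.iInter fun l => ?_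
    exact (measurableSet_le measurable_const (measurable_pi_apply l)).inter
      (measurableSet_le (measurable_pi_apply l) measurable_const)
  · refine MeasurableSet.iInter fun l => ?_
    by_cases h : l = k
    · simp [h]
    · simp only [h, ne_eq, not_false_eq_true, true_implies]
      exact measurableSet_lt (measurable_pi_apply k) (measurable_pi_apply l)

theorem volume_minAt_eq (k l : Fin 3) : volume (minAt k) = volume (minAt l) := by
  have hmp := volume_measurePreserving_piCongrLeft (fun _ : Fin 3 => ℝ) (Equiv.swap k l)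
  rw [← hmp.measure_preimage_equiv (minAt k)]
  congr 1
  ext y
  simp only [Set.mem_preimage, minAt, Set.mem_ofPred_eq]
  have e : ∀ m, (MeasurableEquiv.piCongrLeft (fun _ : Fin 3 => ℝ) (Equiv.swap k l)) y m =
      y (Equiv.swap k l m) := by
    intro m
    have := Equiv.piCongrLeft_apply_apply (fun _ : Fin 3 => ℝ) (Equiv.swap k l) y
      (Equiv.swap k l m)
    rw [MeasurableEquiv.coe_piCongrLeft]
    simpa using this
  simp only [e]
  constructor
  · rintro ⟨h1, h2⟩
    refine ⟨fun m => by simpa using h1 (Equiv.swap k l m), fun m hm => ?_⟩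
    have := h2 (Equiv.swap k l m) (by
      intro h; apply hm
      have := congrArg (Equiv.swap k l) h
      simpa using this)
    simpa using this
  · rintro ⟨h1, h2⟩
    refine ⟨fun m => h1 _, fun m hm => ?_⟩
    have := h2 (Equiv.swap k l m) (by
      intro h; apply hm
      have := congrArg (Equiv.swap k l) h
      simpa using this)
    simpa using this

theorem volume_minAt (k : Fin 3) : volume (minAt k) ≤ ENNReal.ofReal (1 / 81) := by
  have hsub : minAt 0 ∪ (minAt 1 ∪ minAt 2) ⊆ bx 0 := by
    rintro y (h | h | h) <;>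
    exact ⟨fun l => (h.1 l).1, fun l => by simpa using (h.1 l).2⟩
  have hd1 : Disjoint (minAt 0) (minAt 1 ∪ minAt 2) := by
    rw [Set.disjoint_left]
    rintro y ⟨-, h0⟩ (⟨-, h1⟩ | ⟨-, h1⟩)
    · have := h0 1 (by decide); have := h1 0 (by decide); linarith
    · have := h0 2 (by decide); have := h1 0 (by decide); linarith
  have hd2 : Disjoint (minAt 1) (minAt 2) := by
    rw [Set.disjoint_left]
    rintro y ⟨-, h0⟩ ⟨-, h1⟩
    have := h0 2 (by decide); have := h1 1 (by decide); linarith
  have h1 := measure_mono (μ := volume) hsub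
  rw [measure_union hd1 ((measurableSet_minAt 1).union (measurableSet_minAt 2)),
    measure_union hd2 (measurableSet_minAt 2), volume_bx, volume_minAt_eq 0 k,
    volume_minAt_eq 1 k, volume_minAt_eq 2 k] at h1
  have hfin : volume (minAt k) ≠ ⊤ := by
    refine ne_top_of_le_ne_top ?_ (le_self_add.trans h1)
    simp
  rw [← ENNReal.ofReal_toReal hfin] at h1 ⊢
  rw [← ENNReal.ofReal_add ENNReal.toReal_nonneg ENNReal.toReal_nonneg,
    ← ENNReal.ofReal_add ENNReal.toReal_nonneg (by positivity)] at h1
  apply ENNReal.ofReal_le_ofReal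
  have := (ENNReal.ofReal_le_ofReal_iff (by norm_num)).mp h1
  linarith

theorem volume_pieceA (w : Fin 3 → ℝ) (i j k : Fin 3) (hik : i ≠ k) (hjk : j ≠ k) (hij : i ≠ j) :
    volume (pieceA w i j k) ≤ ENNReal.ofReal (1 / 81) := by
  -- the map `x ↦ x - w` off `k`, `x_k ↦ w_k + 1/3 - x_k`
  have hmp : MeasurePreserving (fun (x : Fin 3 → ℝ) (l : Fin 3) =>
      (if l = k then fun s : ℝ => (w k + 1 / 3) - s else fun s : ℝ => -w l + s) (x l)) := by
    apply volume_preserving_pi
    intro l
    split_ifs
    · exact Measure.measurePreserving_sub_left volume (w k + 1 / 3)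
    · exact measurePreserving_add_left volume (-w l)
  refine le_trans ?_ (volume_minAt k)
  rw [← hmp.measure_preimage (measurableSet_minAt k).nullMeasurableSet]
  apply measure_mono
  rintro x ⟨⟨h1, h2⟩, h3, h4⟩
  have hall' : ∀ i j k : Fin 3, i ≠ k → j ≠ k → i ≠ j → ∀ l, l = i ∨ l = j ∨ l = k := by decide
  have hall := hall' i j k hik hjk hij
  refine ⟨fun l => ?_, fun l hl => ?_⟩
  · have a1 := h1 l
    have a2 := h2 l
    dsimp only at a2 ⊢
    split_ifs with h
    · subst h; constructor <;> linarith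
    · constructor <;> linarith
  · dsimp only
    rw [if_pos rfl, if_neg hl]
    rcases hall l with rfl | rfl | rfl
    · linarith
    · linarith
    · exact absurd rfl hl

end Pool.Agent.Helper3.Cop
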