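import Pool.Agent.Helper3.Cop.Bound

set_option autoImplicit false

namespace Pool.Agent.Helper3.Cop

open MeasureTheory Finset Filter Topology Pool.Agent.Helper43.Copula

theorem log_factorial_le (n : ℕ) (hn : 1 ≤ n) :
    Real.log (n.factorial : ℝ) ≤ n * Real.log n - n + Real.log n + 1 := by
  induction n, hn using Nat.le_induction with
  | base => simp
  | succ n hn ih =>
    have hn' : (0 : ℝ) < n := by exact_mod_cast hn
    rw [Nat.factorial_succ, Nat.cast_mul, Real.log_mul (by positivity) (by positivity)]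
    push_cast
    -- `(n+1) (log (n+1) - log n) ≥ 1`
    have h1 : 1 ≤ ((n : ℝ) + 1) * (Real.log (n + 1) - Real.log n) := by
      have h2 := Real.one_sub_inv_le_log_of_pos (x := ((n : ℝ) + 1) / n) (by positivity)
      rw [Real.log_div (by positivity) (by positivity)] at h2
      have h3 : 1 - (((n : ℝ) + 1) / n)⁻¹ = 1 / (n + 1) := by
        field_simp
        ring
      rw [h3] at h2
      calc (1 : ℝ) = (n + 1) * (1 / (n + 1)) := by field_simp
        _ ≤ _ := mul_le_mul_of_nonneg_left h2 (by positivity)
    nlinarith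

theorem log_gap_le (n : ℕ) (hn : 3 ≤ n) :
    Real.log (1 - (maxAgreement n).toReal) ≤ -n + 2 * Real.log n + 1 := by
  have h1 := lt_one hn
  have h2 := lower_bound (n := n) (by omega)
  have hn' : (0 : ℝ) < n := by
    have : 0 < n := by omega
    exact_mod_cast this
  have h3 : 1 - (maxAgreement n).toReal ≤ (n.factorial : ℝ) / n ^ (n - 1) := by linarith
  have h4 := Real.log_le_log (by linarith) h3
  rw [Real.log_div (by positivity) (by positivity), Real.log_pow,
    Nat.cast_sub (by omega : 1 ≤ n)] at h4
  have h5 := log_factorial_le n (by omega)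
  push_cast at h4
  nlinarith

theorem eventually_log_gap_ge :
    ∀ᶠ n : ℕ in atTop, -(n : ℝ) - Real.log 2 ≤ Real.log (1 - (maxAgreement n).toReal) := by
  have h1 := FloorSemiring.tendsto_pow_div_factorial_atTop (Real.exp 1)
  have h2 : ∀ᶠ n : ℕ in atTop, Real.exp 1 ^ n / (n.factorial : ℝ) < 1 / 2 :=
    h1.eventually (gt_mem_nhds (by norm_num))
  filter_upwards [h2, eventually_ge_atTop 1] with n hn hn1
  have h3 := upper_bound hn1
  have h4 : 1 / (n.factorial : ℝ) ≤ Real.exp (-(n : ℝ)) / 2 := by
    have h5 : Real.exp (-(n : ℝ)) = 1 / Real.exp 1 ^ n := by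
      rw [← Real.exp_nat_mul, mul_one, Real.exp_neg, one_div]
    have hf : (0 : ℝ) < n.factorial := by positivity
    have he : (0 : ℝ) < Real.exp 1 ^ n := by positivity
    rw [div_lt_iff₀ hf] at hn
    rw [h5, div_div, div_le_div_iff₀ hf (by positivity)]
    linarith
  have h6 : Real.exp (-(n : ℝ)) / 2 ≤ 1 - (maxAgreement n).toReal := by linarith
  have h7 := Real.log_le_log (by positivity) h6
  rw [Real.log_div (Real.exp_pos _).ne' (by norm_num), Real.log_exp] at h7
  exact h7

theorem rate : Tendsto (fun n : ℕ => Real.log (1 - (maxAgreement n).toReal) / n) atTop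
    (𝓝 (-1)) := by
  have hlog : Tendsto (fun n : ℕ => Real.log n / n) atTop (𝓝 0) := by
    have := Real.isLittleO_log_id_atTop.tendsto_div_nhds_zero
    exact this.comp tendsto_natCast_atTop_atTop
  have hinv : ∀ c : ℝ, Tendsto (fun n : ℕ => c / (n : ℝ)) atTop (𝓝 0) := fun c =>
    tendsto_const_div_atTop_nhds_zero_nat c
  have hlow : Tendsto (fun n : ℕ => -1 - Real.log 2 / (n : ℝ)) atTop (𝓝 (-1)) := by
    simpa using (hinv (Real.log 2)).const_sub (-1)
  have hup : Tendsto (fun n : ℕ => -1 + 2 * (Real.log n / n) + 1 / (n : ℝ)) atTop (𝓝 (-1)) := by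
    have := ((hlog.const_mul 2).const_add (-1)).add (hinv 1)
    simpa using this
  refine tendsto_of_tendsto_of_tendsto_of_le_of_le' hlow hup ?_ ?_
  · filter_upwards [eventually_log_gap_ge, eventually_ge_atTop 1] with n hn hn1
    have hn' : (0 : ℝ) < n := by exact_mod_cast hn1
    rw [le_div_iff₀ hn']
    have : (-1 - Real.log 2 / (n : ℝ)) * n = -n - Real.log 2 := by field_simp
    rw [this]
    exact hn
  · filter_upwards [eventually_ge_atTop 3] with n hn
    have hn' : (0 : ℝ) < n := by
      have : 0 < n := by omega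
      exact_mod_cast this
    rw [div_le_iff₀ hn']
    have : (-1 + 2 * (Real.log n / n) + 1 / (n : ℝ)) * n = -n + 2 * Real.log n + 1 := by
      field_simp
    rw [this]
    exact log_gap_le n hn

end Pool.Agent.Helper3.Cop
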