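import Pool.Agent.Helper3.Cop.Basic

set_option autoImplicit false

namespace Pool.Agent.Helper3.Cop

open MeasureTheory Finset Pool.Agent.Helper43.Copula

/-! ### The copula of the three curves `(t, 1/3 + t, 1 - t)` and cyclic shifts -/

/-- distribution function of the curve `(t, 1/3 + t, 1 - t)`, `0 ≤ t ≤ 1/3` -/
noncomputable def cv (a b c : ℝ) : ℝ := max 0 (min (min (1 / 3) a) (b - 1 / 3) - max 0 (1 - c))

/-- the copula -/
noncomputable def C3 (x : Fin 3 → ℝ) : ℝ :=
  cv (x 0) (x 1) (x 2) + cv (x 1) (x 2) (x 0) + cv (x 2) (x 0) (x 1)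

theorem cv_nonneg (a b c : ℝ) : 0 ≤ cv a b c := le_max_left _ _

theorem cv_le (a b c : ℝ) : cv a b c ≤ 1 / 3 := by
  unfold cv
  apply max_le (by norm_num)
  have h1 : min (min (1 / 3) a) (b - 1 / 3) ≤ 1 / 3 := (min_le_left _ _).trans (min_le_left _ _)
  have h2 : 0 ≤ max 0 (1 - c) := le_max_left _ _
  linarith

theorem cv_zero_of (a b c : ℝ) (h : a ≤ 0 ∨ b ≤ 1 / 3 ∨ c ≤ 2 / 3 ∨ a + c ≤ 1 ∨ b + c ≤ 4 / 3) :
    cv a b c = 0 := by
  unfold cv
  apply max_eq_left
  have h1 : min (min (1 / 3) a) (b - 1 / 3) ≤ 1 / 3 := (min_le_left _ _).trans (min_le_left _ _)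
  have h2 : min (min (1 / 3) a) (b - 1 / 3) ≤ a := (min_le_left _ _).trans (min_le_right _ _)
  have h3 : min (min (1 / 3) a) (b - 1 / 3) ≤ b - 1 / 3 := min_le_right _ _
  have h4 : 0 ≤ max 0 (1 - c) := le_max_left _ _
  have h5 : 1 - c ≤ max 0 (1 - c) := le_max_right _ _
  rcases h with h | h | h | h | h <;> linarith

theorem vol3 (G : (Fin 3 → ℝ) → ℝ) (u v : Fin 3 → ℝ) :
    boxVolume G u v = G ![v 0, v 1, v 2] - G ![u 0, v 1, v 2] - G ![v 0, u 1, v 2]
      - G ![v 0, v 1, u 2] + G ![u 0, u 1, v 2] + G ![u 0, v 1, u 2] + G ![v 0, u 1, u 2]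
      - G ![u 0, u 1, u 2] := by
  have hun : (univ : Finset (Finset (Fin 3))) =
      {∅, {0}, {1}, {2}, {0, 1}, {0, 2}, {1, 2}, {0, 1, 2}} := by decide
  unfold boxVolume
  rw [hun]
  rw [sum_insert (by decide), sum_insert (by decide), sum_insert (by decide),
    sum_insert (by decide), sum_insert (by decide), sum_insert (by decide),
    sum_insert (by decide), sum_singleton]
  have e : ∀ s : Finset (Fin 3), vertex u v s =
      ![if (0 : Fin 3) ∈ s then v 0 else u 0, if (1 : Fin 3) ∈ s then v 1 else u 1,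
        if (2 : Fin 3) ∈ s then v 2 else u 2] := by
    intro s
    ext k
    fin_cases k <;> simp [vertex]
  simp only [e]
  have c1 : #({0} : Finset (Fin 3)) = 1 := by decide
  have c2 : #({1} : Finset (Fin 3)) = 1 := by decide
  have c3 : #({2} : Finset (Fin 3)) = 1 := by decide
  have c4 : #({0, 1} : Finset (Fin 3)) = 2 := by decide
  have c5 : #({0, 2} : Finset (Fin 3)) = 2 := by decide
  have c6 : #({1, 2} : Finset (Fin 3)) = 2 := by decide
  have c7 : #({0, 1, 2} : Finset (Fin 3)) = 3 := by decide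
  have c0 : #(∅ : Finset (Fin 3)) = 0 := by decide
  rw [c0, c1, c2, c3, c4, c5, c6, c7]
  have d1 : (2 : Fin 3) ≠ 0 := by decide
  have d2 : (2 : Fin 3) ≠ 1 := by decide
  have d3 : (0 : Fin 3) ≠ 2 := by decide
  have d4 : (1 : Fin 3) ≠ 2 := by decide
  simp [d1, d2, d3, d4]
  ring

theorem q_mono (e2 e1 s t : ℝ) (he : e2 ≤ e1) (hst : s ≤ t) :
    max 0 (s - e2) - max 0 (s - e1) ≤ max 0 (t - e2) - max 0 (t - e1) := by
  rcases le_total s e2 with h1 | h1 <;> rcases le_total s e1 with h2 | h2 <;>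
  rcases le_total t e2 with h3 | h3 <;> rcases le_total t e1 with h4 | h4 <;>
  · first
    | rw [max_eq_left (by linarith : s - e2 ≤ 0)]
    | rw [max_eq_right (by linarith : 0 ≤ s - e2)]
    first
    | rw [max_eq_left (by linarith : s - e1 ≤ 0)]
    | rw [max_eq_right (by linarith : 0 ≤ s - e1)]
    first
    | rw [max_eq_left (by linarith : t - e2 ≤ 0)]
    | rw [max_eq_right (by linarith : 0 ≤ t - e2)]
    first
    | rw [max_eq_left (by linarith : t - e1 ≤ 0)]
    | rw [max_eq_right (by linarith : 0 ≤ t - e1)]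
    try linarith

theorem cv_vol (a1 a2 b1 b2 c1 c2 : ℝ) (ha : a1 ≤ a2) (hb : b1 ≤ b2) (hc : c1 ≤ c2) :
    0 ≤ cv a2 b2 c2 - cv a1 b2 c2 - cv a2 b1 c2 - cv a2 b2 c1 + cv a1 b1 c2 + cv a1 b2 c1
      + cv a2 b1 c1 - cv a1 b1 c1 := by
  unfold cv
  set e1 := max 0 (1 - c1) with he1
  set e2 := max 0 (1 - c2) with he2
  have he : e2 ≤ e1 := max_le_max le_rfl (by linarith)
  set α1 := min (1 / 3) a1 with hα1
  set α2 := min (1 / 3) a2 with hα2
  have hα : α1 ≤ α2 := min_le_min le_rfl ha
  set β1 := b1 - 1 / 3 with hβ1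
  set β2 := b2 - 1 / 3 with hβ2
  have hβ : β1 ≤ β2 := by linarith
  have q := fun s t h => q_mono e2 e1 s t he h
  rcases le_total α1 β1 with h1 | h1 <;> rcases le_total α1 β2 with h2 | h2 <;>
  rcases le_total α2 β1 with h3 | h3 <;> rcases le_total α2 β2 with h4 | h4 <;>
  · first
    | rw [min_eq_left h1]
    | rw [min_eq_right h1]
    first
    | rw [min_eq_left h2]
    | rw [min_eq_right h2]
    first
    | rw [min_eq_left h3]
    | rw [min_eq_right h3]
    first
    | rw [min_eq_left h4]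
    | rw [min_eq_right h4]
    have q1 := q _ _ hα
    have q2 := q _ _ hβ
    try have q3 := q _ _ h1
    try have q4 := q _ _ h2
    try have q5 := q _ _ h3
    try have q6 := q _ _ h4
    linarith

theorem isCopula_C3 : IsCopula 3 C3 where
  range := by
    intro x _
    unfold C3
    have h1 := cv_nonneg (x 0) (x 1) (x 2)
    have h2 := cv_nonneg (x 1) (x 2) (x 0)
    have h3 := cv_nonneg (x 2) (x 0) (x 1)
    have h4 := cv_le (x 0) (x 1) (x 2)
    have h5 := cv_le (x 1) (x 2) (x 0)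
    have h6 := cv_le (x 2) (x 0) (x 1)
    constructor <;> linarith
  grounded := by
    rintro x - ⟨k, hk⟩
    unfold C3
    fin_cases k
    · have hk' : x 0 = 0 := hk
      rw [hk', cv_zero_of 0 _ _ (by simp), cv_zero_of _ _ 0 (by norm_num),
        cv_zero_of _ 0 _ (by norm_num)]
      norm_num
    · have hk' : x 1 = 0 := hk
      rw [hk', cv_zero_of 0 _ _ (by simp), cv_zero_of _ _ 0 (by norm_num),
        cv_zero_of _ 0 _ (by norm_num)]
      norm_num
    · have hk' : x 2 = 0 := hk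
      rw [hk', cv_zero_of 0 _ _ (by simp), cv_zero_of _ _ 0 (by norm_num),
        cv_zero_of _ 0 _ (by norm_num)]
      norm_num
  margin := by
    have key : ∀ a : ℝ, 0 ≤ a → a ≤ 1 → cv a 1 1 + cv 1 1 a + cv 1 a 1 = a := by
      intro a h0 h1
      unfold cv
      rcases le_total a (1 / 3) with h2 | h2
      · rw [min_eq_right h2, min_eq_left (by linarith : a ≤ 1 - 1 / 3),
          min_eq_left (by norm_num : (1 / 3 : ℝ) ≤ 1), min_eq_left (by norm_num : (1 / 3 : ℝ) ≤ 1 - 1 / 3),
          min_eq_right (by linarith : a - 1 / 3 ≤ 1 / 3), max_eq_right (by linarith : 0 ≤ 1 - a)]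
        norm_num
        rw [max_eq_right h0, max_eq_left (by linarith), max_eq_left (by linarith)]
        ring
      · rcases le_total a (2 / 3) with h3 | h3
        · rw [min_eq_left h2, min_eq_left (by norm_num : (1 / 3 : ℝ) ≤ 1 - 1 / 3),
            min_eq_left (by norm_num : (1 / 3 : ℝ) ≤ 1),
            min_eq_left (by norm_num : (1 / 3 : ℝ) ≤ 1 - 1 / 3),
            min_eq_right (by linarith : a - 1 / 3 ≤ 1 / 3), max_eq_right (by linarith : 0 ≤ 1 - a)]
          norm_num
          rw [max_eq_left (by linarith), max_eq_right (by linarith)]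
          ring
        · rw [min_eq_left h2, min_eq_left (by norm_num : (1 / 3 : ℝ) ≤ 1 - 1 / 3),
            min_eq_left (by norm_num : (1 / 3 : ℝ) ≤ 1),
            min_eq_left (by norm_num : (1 / 3 : ℝ) ≤ 1 - 1 / 3),
            min_eq_left (by linarith : 1 / 3 ≤ a - 1 / 3), max_eq_right (by linarith : 0 ≤ 1 - a)]
          norm_num
          rw [max_eq_right (by linarith)]
          ring
    intro x hx k hk
    unfold C3
    fin_cases k
    · have h1 : x 1 = 1 := hk 1 (by decide)
      have h2 : x 2 = 1 := hk 2 (by decide)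
      have := key (x 0) (hx 0).1 (hx 0).2
      rw [h1, h2]
      change _ = x 0
      linarith
    · have h1 : x 0 = 1 := hk 0 (by decide)
      have h2 : x 2 = 1 := hk 2 (by decide)
      have := key (x 1) (hx 1).1 (hx 1).2
      rw [h1, h2]
      change _ = x 1
      linarith
    · have h1 : x 0 = 1 := hk 0 (by decide)
      have h2 : x 1 = 1 := hk 1 (by decide)
      have := key (x 2) (hx 2).1 (hx 2).2
      rw [h1, h2]
      change _ = x 2
      linarith
  increasing := by
    intro u _ v _ huv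
    rw [vol3]
    unfold C3
    simp only [Matrix.cons_val_zero, Matrix.cons_val_one, Matrix.cons_val]
    have h1 := cv_vol (u 0) (v 0) (u 1) (v 1) (u 2) (v 2) (huv 0) (huv 1) (huv 2)
    have h2 := cv_vol (u 1) (v 1) (u 2) (v 2) (u 0) (v 0) (huv 1) (huv 2) (huv 0)
    have h3 := cv_vol (u 2) (v 2) (u 0) (v 0) (u 1) (v 1) (huv 2) (huv 0) (huv 1)
    linarith

end Pool.Agent.Helper3.Cop
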