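import Pool.Agent.Helper3.Cop.Pieces

set_option autoImplicit false

namespace Pool.Agent.Helper3.Cop

open MeasureTheory Finset Pool.Agent.Helper43.Copula

/-- the three curves: value off the exceptional pieces -/
theorem core (a b c : ℝ) (hpos : 0 < cv a b c) (hb1 : b ≤ 1) (hc1 : c ≤ 1) (ha1 : a ≤ 1)
    (N1 : ¬ (a ≤ 1 / 3 ∧ 1 / 3 ≤ b ∧ b ≤ 2 / 3 ∧ 2 / 3 ≤ c ∧ 1 < a + c ∧ 4 / 3 < b + c))
    (N2 : ¬ (a ≤ 1 / 3 ∧ 2 / 3 ≤ b ∧ 2 / 3 ≤ c ∧ 1 < a + c))
    (N3 : ¬ (1 / 3 ≤ a ∧ a ≤ 2 / 3 ∧ 1 / 3 ≤ b ∧ b ≤ 2 / 3 ∧ 2 / 3 ≤ c ∧ 4 / 3 < b + c))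
    (N4 : ¬ (1 / 3 ≤ a ∧ a ≤ 2 / 3 ∧ 2 / 3 ≤ b ∧ 2 / 3 ≤ c ∧ a + b < 4 / 3)) :
    cv a b c + cv b c a + cv c a b = a + b + c - 2 := by
  have h1 : ¬ a ≤ 0 := fun h => by rw [cv_zero_of a b c (Or.inl h)] at hpos; exact lt_irrefl _ hpos
  have h2 : ¬ b ≤ 1 / 3 := fun h => by
    rw [cv_zero_of a b c (Or.inr (Or.inl h))] at hpos; exact lt_irrefl _ hpos
  have h3 : ¬ c ≤ 2 / 3 := fun h => by
    rw [cv_zero_of a b c (Or.inr (Or.inr (Or.inl h)))] at hpos; exact lt_irrefl _ hpos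
  have h4 : ¬ a + c ≤ 1 := fun h => by
    rw [cv_zero_of a b c (Or.inr (Or.inr (Or.inr (Or.inl h))))] at hpos; exact lt_irrefl _ hpos
  have h5 : ¬ b + c ≤ 4 / 3 := fun h => by
    rw [cv_zero_of a b c (Or.inr (Or.inr (Or.inr (Or.inr h))))] at hpos; exact lt_irrefl _ hpos
  push Not at h1 h2 h3 h4 h5
  -- `a ≥ 1/3`
  have ha : 1 / 3 < a := by
    by_contra h
    push Not at h
    rcases le_total b (2 / 3) with h6 | h6
    · exact N1 ⟨h, h2.le, h6, h3.le, h4, h5⟩
    · exact N2 ⟨h, h6, h3.le, h4⟩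
  rcases le_or_gt b (2 / 3) with hb | hb
  · -- `b ≤ 2/3`, hence `a > 2/3`
    have ha2 : 2 / 3 < a := by
      by_contra h
      push Not at h
      exact N3 ⟨ha.le, h, h2.le, hb, h3.le, h5⟩
    have e1 : cv a b c = b + c - 4 / 3 := by
      unfold cv
      rw [min_eq_left ha.le, min_eq_right (by linarith), max_eq_right (by linarith : 0 ≤ 1 - c),
        max_eq_right (by linarith)]
      ring
    have e2 : cv b c a = a - 2 / 3 := by
      unfold cv
      rw [min_eq_left h2.le, min_eq_left (by linarith), max_eq_right (by linarith : 0 ≤ 1 - a),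
        max_eq_right (by linarith)]
      ring
    have e3 : cv c a b = 0 := cv_zero_of _ _ _ (Or.inr (Or.inr (Or.inl hb)))
    rw [e1, e2, e3]
    ring
  · rcases le_or_gt a (2 / 3) with ha2 | ha2
    · have h6 : 4 / 3 ≤ a + b := by
        by_contra h
        push Not at h
        exact N4 ⟨ha.le, ha2, hb.le, h3.le, h⟩
      have e1 : cv a b c = c - 2 / 3 := by
        unfold cv
        rw [min_eq_left ha.le, min_eq_left (by linarith), max_eq_right (by linarith : 0 ≤ 1 - c),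
          max_eq_right (by linarith)]
        ring
      have e2 : cv b c a = 0 := cv_zero_of _ _ _ (Or.inr (Or.inr (Or.inl ha2)))
      have e3 : cv c a b = a + b - 4 / 3 := by
        unfold cv
        rw [min_eq_left (by linarith : 1 / 3 ≤ c), min_eq_right (by linarith),
          max_eq_right (by linarith : 0 ≤ 1 - b), max_eq_right (by linarith)]
        ring
      rw [e1, e2, e3]
      ring
    · have e1 : cv a b c = c - 2 / 3 := by
        unfold cv
        rw [min_eq_left ha.le, min_eq_left (by linarith), max_eq_right (by linarith : 0 ≤ 1 - c),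
          max_eq_right (by linarith)]
        ring
      have e2 : cv b c a = a - 2 / 3 := by
        unfold cv
        rw [min_eq_left h2.le, min_eq_left (by linarith), max_eq_right (by linarith : 0 ≤ 1 - a),
          max_eq_right (by linarith)]
        ring
      have e3 : cv c a b = b - 2 / 3 := by
        unfold cv
        rw [min_eq_left (by linarith : 1 / 3 ≤ c), min_eq_left (by linarith),
          max_eq_right (by linarith : 0 ≤ 1 - b), max_eq_right (by linarith)]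
        ring
      rw [e1, e2, e3]
      ring

/-- exceptional pieces of one rotation -/
def exc0 : Set (Fin 3 → ℝ) :=
  pieceA ![0, 1 / 3, 2 / 3] 0 1 2 ∪ (pieceH ![0, 2 / 3, 2 / 3] 0 2 ∪
    (pieceH ![1 / 3, 1 / 3, 2 / 3] 1 2 ∪ pieceL ![1 / 3, 2 / 3, 2 / 3] 0 1))

def exc1 : Set (Fin 3 → ℝ) :=
  pieceA ![2 / 3, 0, 1 / 3] 1 2 0 ∪ (pieceH ![2 / 3, 0, 2 / 3] 1 0 ∪
    (pieceH ![2 / 3, 1 / 3, 1 / 3] 2 0 ∪ pieceL ![2 / 3, 1 / 3, 2 / 3] 1 2))

def exc2 : Set (Fin 3 → ℝ) :=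
  pieceA ![1 / 3, 2 / 3, 0] 2 0 1 ∪ (pieceH ![2 / 3, 2 / 3, 0] 2 1 ∪
    (pieceH ![1 / 3, 2 / 3, 1 / 3] 0 1 ∪ pieceL ![2 / 3, 2 / 3, 1 / 3] 2 0))

theorem mem_bx {w x : Fin 3 → ℝ} (h0 : w 0 ≤ x 0 ∧ x 0 ≤ w 0 + 1 / 3)
    (h1 : w 1 ≤ x 1 ∧ x 1 ≤ w 1 + 1 / 3) (h2 : w 2 ≤ x 2 ∧ x 2 ≤ w 2 + 1 / 3) : x ∈ bx w := by
  constructor
  · intro k
    fin_cases k
    · exact h0.1
    · exact h1.1
    · exact h2.1
  · intro k
    fin_cases k
    · exact h0.2
    · exact h1.2
    · exact h2.2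

theorem C3_eq {x : Fin 3 → ℝ} (hx : x ∈ cube 3) (h0 : x ∉ exc0) (h1 : x ∉ exc1) (h2 : x ∉ exc2) :
    C3 x = lowerFrechet 3 x := by
  have hW : lowerFrechet 3 x ≤ C3 x := lowerFrechet_le (by norm_num) isCopula_C3 hx
  have hWe : lowerFrechet 3 x = max (x 0 + x 1 + x 2 - 2) 0 := by
    unfold lowerFrechet
    rw [Fin.sum_univ_three]
    congr 1
    push_cast
    ring
  have hx0 := hx 0
  have hx1 := hx 1
  have hx2 := hx 2
  have fin : ∀ S : ℝ, C3 x = x 0 + x 1 + x 2 - 2 → 0 ≤ C3 x → C3 x = lowerFrechet 3 x := by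
    intro _ h h'
    rw [hWe, ← h, max_eq_left h']
  have hnn : 0 ≤ C3 x := (isCopula_C3.range x hx).1
  simp only [exc0, exc1, exc2, Set.mem_union, not_or] at h0 h1 h2
  obtain ⟨a1, a2, a3, a4⟩ := h0
  obtain ⟨b1, b2, b3, b4⟩ := h1
  obtain ⟨c1, c2, c3, c4⟩ := h2
  by_cases hA : 0 < cv (x 0) (x 1) (x 2)
  · apply fin 0 _ hnn
    have := core (x 0) (x 1) (x 2) hA hx1.2 hx2.2 hx0.2
      (by
        rintro ⟨g1, g2, g3, g4, g5, g6⟩
        apply a1
        refine ⟨mem_bx ?_ ?_ ?_, ?_, ?_⟩ <;> simp <;> (try constructor) <;> linarith)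
      (by
        rintro ⟨g1, g2, g3, g4⟩
        apply a2
        refine ⟨mem_bx ?_ ?_ ?_, ?_⟩ <;> simp <;> (try constructor) <;> linarith)
      (by
        rintro ⟨g1, g2, g3, g4, g5, g6⟩
        apply a3
        refine ⟨mem_bx ?_ ?_ ?_, ?_⟩ <;> simp <;> (try constructor) <;> linarith)
      (by
        rintro ⟨g1, g2, g3, g4, g5⟩
        apply a4
        refine ⟨mem_bx ?_ ?_ ?_, ?_⟩ <;> simp <;> (try constructor) <;> linarith)
    unfold C3
    linarith
  by_cases hB : 0 < cv (x 1) (x 2) (x 0)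
  · apply fin 0 _ hnn
    have := core (x 1) (x 2) (x 0) hB hx2.2 hx0.2 hx1.2
      (by
        rintro ⟨g1, g2, g3, g4, g5, g6⟩
        apply b1
        refine ⟨mem_bx ?_ ?_ ?_, ?_, ?_⟩ <;> simp <;> (try constructor) <;> linarith)
      (by
        rintro ⟨g1, g2, g3, g4⟩
        apply b2
        refine ⟨mem_bx ?_ ?_ ?_, ?_⟩ <;> simp <;> (try constructor) <;> linarith)
      (by
        rintro ⟨g1, g2, g3, g4, g5, g6⟩
        apply b3
        refine ⟨mem_bx ?_ ?_ ?_, ?_⟩ <;> simp <;> (try constructor) <;> linarith)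
      (by
        rintro ⟨g1, g2, g3, g4, g5⟩
        apply b4
        refine ⟨mem_bx ?_ ?_ ?_, ?_⟩ <;> simp <;> (try constructor) <;> linarith)
    unfold C3
    linarith
  by_cases hC : 0 < cv (x 2) (x 0) (x 1)
  · apply fin 0 _ hnn
    have := core (x 2) (x 0) (x 1) hC hx0.2 hx1.2 hx2.2
      (by
        rintro ⟨g1, g2, g3, g4, g5, g6⟩
        apply c1
        refine ⟨mem_bx ?_ ?_ ?_, ?_, ?_⟩ <;> simp <;> (try constructor) <;> linarith)
      (by
        rintro ⟨g1, g2, g3, g4⟩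
        apply c2
        refine ⟨mem_bx ?_ ?_ ?_, ?_⟩ <;> simp <;> (try constructor) <;> linarith)
      (by
        rintro ⟨g1, g2, g3, g4, g5, g6⟩
        apply c3
        refine ⟨mem_bx ?_ ?_ ?_, ?_⟩ <;> simp <;> (try constructor) <;> linarith)
      (by
        rintro ⟨g1, g2, g3, g4, g5⟩
        apply c4
        refine ⟨mem_bx ?_ ?_ ?_, ?_⟩ <;> simp <;> (try constructor) <;> linarith)
    unfold C3
    linarith
  -- all three vanish
  have e : C3 x = 0 := by
    unfold C3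
    have g1 := cv_nonneg (x 0) (x 1) (x 2)
    have g2 := cv_nonneg (x 1) (x 2) (x 0)
    have g3 := cv_nonneg (x 2) (x 0) (x 1)
    push Not at hA hB hC
    linarith
  apply le_antisymm _ hW
  rw [e, hWe]
  exact le_max_right _ _

theorem volume_exc : volume (exc0 ∪ (exc1 ∪ exc2)) ≤ ENNReal.ofReal (11 / 54) := by
  have h : ∀ (w1 w2 w3 w4 : Fin 3 → ℝ) (i j k p1 q1 p2 q2 p3 q3 : Fin 3), i ≠ k → j ≠ k → i ≠ j →
      volume (pieceA w1 i j k ∪ (pieceH w2 p1 q1 ∪ (pieceH w3 p2 q2 ∪ pieceL w4 p3 q3))) ≤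
        ENNReal.ofReal (11 / 162) := by
    intro w1 w2 w3 w4 i j k p1 q1 p2 q2 p3 q3 hik hjk hij
    calc _ ≤ volume (pieceA w1 i j k) + (volume (pieceH w2 p1 q1) +
          (volume (pieceH w3 p2 q2) + volume (pieceL w4 p3 q3))) := by
          refine (measure_union_le _ _).trans (add_le_add le_rfl ?_)
          refine (measure_union_le _ _).trans (add_le_add le_rfl ?_)
          exact measure_union_le _ _
      _ ≤ ENNReal.ofReal (1 / 81) + (ENNReal.ofReal (1 / 54) + (ENNReal.ofReal (1 / 54) +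
          ENNReal.ofReal (1 / 54))) :=
          add_le_add (volume_pieceA w1 i j k hik hjk hij) (add_le_add (volume_half _ _ _).1
            (add_le_add (volume_half _ _ _).1 (volume_half _ _ _).2))
      _ = ENNReal.ofReal (11 / 162) := by
          rw [← ENNReal.ofReal_add (by norm_num) (by norm_num),
            ← ENNReal.ofReal_add (by norm_num) (by norm_num),
            ← ENNReal.ofReal_add (by norm_num) (by norm_num)]
          norm_num
  calc volume (exc0 ∪ (exc1 ∪ exc2)) ≤ volume exc0 + (volume exc1 + volume exc2) :=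
        (measure_union_le _ _).trans (add_le_add le_rfl (measure_union_le _ _))
    _ ≤ ENNReal.ofReal (11 / 162) + (ENNReal.ofReal (11 / 162) + ENNReal.ofReal (11 / 162)) :=
        add_le_add (h _ _ _ _ _ _ _ _ _ _ _ _ _ (by decide) (by decide) (by decide))
          (add_le_add (h _ _ _ _ _ _ _ _ _ _ _ _ _ (by decide) (by decide) (by decide))
            (h _ _ _ _ _ _ _ _ _ _ _ _ _ (by decide) (by decide) (by decide)))
    _ = ENNReal.ofReal (11 / 54) := by
        rw [← ENNReal.ofReal_add (by norm_num) (by norm_num),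
          ← ENNReal.ofReal_add (by norm_num) (by norm_num)]
        norm_num

theorem measurableSet_exc : MeasurableSet (exc0 ∪ (exc1 ∪ exc2)) := by
  have h : ∀ (w1 w2 w3 w4 : Fin 3 → ℝ) (i j k p1 q1 p2 q2 p3 q3 : Fin 3),
      MeasurableSet (pieceA w1 i j k ∪ (pieceH w2 p1 q1 ∪ (pieceH w3 p2 q2 ∪ pieceL w4 p3 q3))) :=
    fun w1 w2 w3 w4 i j k p1 q1 p2 q2 p3 q3 => (measurableSet_pieceA _ _ _ _).union
      ((measurableSet_pieceH _ _ _).union ((measurableSet_pieceH _ _ _).union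
        (measurableSet_pieceL _ _ _)))
  exact (h _ _ _ _ _ _ _ _ _ _ _ _ _).union ((h _ _ _ _ _ _ _ _ _ _ _ _ _).union
    (h _ _ _ _ _ _ _ _ _ _ _ _ _))

/-- `s_3 ≥ 43/54` -/
theorem three_bound : 43 / 54 ≤ (maxAgreement 3).toReal := by
  set E := exc0 ∪ (exc1 ∪ exc2) with hE
  have h1 : volume (cube 3 \ E) ≤ maxAgreement 3 := by
    apply le_sSup
    refine ⟨cube 3 \ E, Set.sdiff_subset, isClosed_cube.measurableSet.diff measurableSet_exc,
      ⟨C3, isCopula_C3, ?_⟩, rfl⟩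
    rintro x ⟨hx, hx'⟩
    simp only [hE, Set.mem_union, not_or] at hx'
    exact C3_eq hx hx'.1 hx'.2.1 hx'.2.2
  have h2 : volume (cube 3) ≤ volume (cube 3 \ E) + volume E := by
    refine (measure_mono ?_).trans (measure_union_le _ _)
    intro x hx
    by_cases h : x ∈ E
    · exact Or.inr h
    · exact Or.inl ⟨hx, h⟩
  rw [volume_cube] at h2
  have h3 : (1 : ENNReal) ≤ maxAgreement 3 + ENNReal.ofReal (11 / 54) :=
    h2.trans (add_le_add h1 volume_exc)
  have h4 := ENNReal.toReal_mono (ENNReal.add_ne_top.mpr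
    ⟨maxAgreement_ne_top, ENNReal.ofReal_ne_top⟩) h3
  rw [ENNReal.toReal_add maxAgreement_ne_top ENNReal.ofReal_ne_top,
    ENNReal.toReal_ofReal (by norm_num)] at h4
  simp only [ENNReal.toReal_one] at h4
  linarith

end Pool.Agent.Helper3.Cop
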