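import Pool.Agent.Helper3.Cop.Cells

set_option autoImplicit false

namespace Pool.Agent.Helper3.Cop

open MeasureTheory Finset Pool.Agent.Helper43.Copula

variable {n : ℕ}

/-- test function -/
noncomputable def phi (M : ℝ) (N c : ℕ) : ℝ :=
  if c + 1 < N then min M (-Real.log (1 - ((c : ℝ) + 1) / N)) else M

theorem phi_nonneg {M : ℝ} (hM : 0 ≤ M) {N c : ℕ} : 0 ≤ phi M N c := by
  unfold phi
  split_ifs with h
  · refine le_min hM ?_
    have hN : (0 : ℝ) < N := by
      have : 0 < N := by omega
      exact_mod_cast this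
    have h1 : ((c : ℝ) + 1) / N < 1 := by
      rw [div_lt_one hN]
      exact_mod_cast h
    have h2 : 0 < ((c : ℝ) + 1) / N := by positivity
    have := Real.log_nonpos (x := 1 - ((c : ℝ) + 1) / N) (by linarith) (by linarith)
    linarith
  · exact hM

theorem le_sum_phi {M : ℝ} (hM : 0 ≤ M) {N : ℕ} (hN : 1 ≤ N) {j : Fin n → ℕ}
    (hj : ∀ k, j k < N) (h : ∏ k, (1 - ((j k : ℝ) + 1) / N) ≤ Real.exp (-M)) (hn : 1 ≤ n) :
    M ≤ ∑ k, phi M N (j k) := by
  have hN' : (0 : ℝ) < N := by exact_mod_cast hN
  by_cases hall : ∃ k, M ≤ phi M N (j k)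
  · obtain ⟨k, hk⟩ := hall
    exact hk.trans (single_le_sum (f := fun k => phi M N (j k)) (fun i _ => phi_nonneg hM)
      (mem_univ k))
  · push Not at hall
    have h1 : ∀ k, j k + 1 < N ∧ phi M N (j k) = -Real.log (1 - ((j k : ℝ) + 1) / N) := by
      intro k
      have h2 := hall k
      unfold phi at h2 ⊢
      split_ifs at h2 ⊢ with h3
      · refine ⟨h3, ?_⟩
        rcases min_choice M (-Real.log (1 - ((j k : ℝ) + 1) / N)) with h4 | h4
        · rw [h4] at h2
          exact absurd h2 (lt_irrefl _)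
        · exact h4
      · exact absurd h2 (lt_irrefl _)
    rw [sum_congr rfl fun k _ => (h1 k).2, sum_neg_distrib, ← Real.log_prod]
    · have hpos : ∀ k, (0 : ℝ) < 1 - ((j k : ℝ) + 1) / N := by
        intro k
        have h3 : ((j k : ℝ) + 1) / N < 1 := by
          rw [div_lt_one hN']
          exact_mod_cast (h1 k).1
        linarith
      have h2 := Real.log_le_log (prod_pos fun k _ => hpos k) h
      rw [Real.log_exp] at h2
      linarith
    · intro k _
      have h3 : ((j k : ℝ) + 1) / N < 1 := by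
        rw [div_lt_one hN']
        exact_mod_cast (h1 k).1
      linarith

theorem log_factorial_bound (N : ℕ) (hN : 1 ≤ N) :
    N * Real.log N - Real.log (N.factorial : ℝ) ≤ N := by
  have hN' : (0 : ℝ) < N := by exact_mod_cast hN
  have h1 : (N : ℝ) ^ N / N.factorial ≤ Real.exp N := Real.pow_div_factorial_le_exp N hN'.le N
  have h2 : (0 : ℝ) < (N : ℝ) ^ N / N.factorial := by positivity
  have h3 := Real.log_le_log h2 h1
  rw [Real.log_exp, Real.log_div (by positivity) (by positivity), Real.log_pow] at h3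
  exact h3

theorem sum_phi_le {M : ℝ} (hM : 0 ≤ M) (N : ℕ) (hN : 1 ≤ N) :
    ∑ c ∈ range N, phi M N c ≤ M + N := by
  have hN' : (0 : ℝ) < N := by exact_mod_cast hN
  obtain ⟨m, rfl⟩ : ∃ m, N = m + 1 := ⟨N - 1, by omega⟩
  rw [sum_range_succ]
  have h1 : phi M (m + 1) m = M := by simp [phi]
  rw [h1]
  have h2 : ∀ c ∈ range m, phi M (m + 1) c ≤
      Real.log ((m + 1 : ℕ) : ℝ) - Real.log ((m - c : ℕ) : ℝ) := by
    intro c hc
    have hc' := mem_range.mp hc
    unfold phi
    rw [if_pos (by omega)]
    refine (min_le_right _ _).trans ?_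
    have h3 : 1 - ((c : ℝ) + 1) / ((m + 1 : ℕ) : ℝ) = ((m - c : ℕ) : ℝ) / ((m + 1 : ℕ) : ℝ) := by
      rw [Nat.cast_sub hc'.le]
      push_cast
      field_simp
      ring
    rw [h3, Real.log_div]
    · linarith
    · have : 0 < m - c := by omega
      positivity
    · positivity
  have h4 := sum_le_sum h2
  have h5 : ∑ c ∈ range m, (Real.log ((m + 1 : ℕ) : ℝ) - Real.log ((m - c : ℕ) : ℝ)) =
      m * Real.log ((m + 1 : ℕ) : ℝ) - Real.log (m.factorial : ℝ) := by
    rw [sum_sub_distrib, sum_const, card_range, nsmul_eq_mul]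
    congr 1
    rw [← Finset.sum_range_reflect, ← Finset.prod_range_add_one_eq_factorial, Nat.cast_prod,
      Real.log_prod]
    · apply sum_congr rfl
      intro c hc
      have := mem_range.mp hc
      congr 2
      omega
    · intro c _
      positivity
  rw [h5] at h4
  have h6 := log_factorial_bound (m + 1) (by omega)
  have h7 : Real.log ((m + 1).factorial : ℝ) =
      Real.log ((m + 1 : ℕ) : ℝ) + Real.log (m.factorial : ℝ) := by
    rw [Nat.factorial_succ, Nat.cast_mul, Real.log_mul (by positivity) (by positivity)]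
  rw [h7] at h6
  push_cast at h4 h6 ⊢
  linarith

/-- The main inequality: a copula which vanishes wherever `∏ (1 - x_k) > exp (-M)` forces
`M ≤ n`. -/
theorem main_ineq (hn : 1 ≤ n) {C : (Fin n → ℝ) → ℝ} (hC : IsCopula n C) {M : ℝ} (hM : 0 ≤ M)
    (h : ∀ p ∈ cube n, 0 < C p → ∏ k, (1 - p k) ≤ Real.exp (-M)) : M ≤ n := by
  classical
  have key : ∀ N : ℕ, 1 ≤ N → M ≤ n * (M / N + 1) := by
    intro N hN
    have hN' : (0 : ℝ) < N := by exact_mod_cast hN
    set J := Fintype.piFinset (fun _ : Fin n => range N) with hJ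
    have hjN : ∀ j ∈ J, ∀ k, j k < N := by
      intro j hj k
      rw [hJ, Fintype.mem_piFinset] at hj
      exact mem_range.mp (hj k)
    have h1 : ∀ j ∈ J, mass C N j * M ≤ mass C N j * ∑ k, phi M N (j k) := by
      intro j hj
      have hm := mass_nonneg hC hN (hjN j hj)
      rcases hm.eq_or_lt with h0 | h0
      · rw [← h0]; simp
      · apply mul_le_mul_of_nonneg_left _ hm
        apply le_sum_phi hM hN (hjN j hj) _ hn
        have h2 := h (gp N (fun k => j k + 1)) (gp_mem_cube hN (hjN j hj))
          (lt_of_lt_of_le h0 (mass_le hn hC hN (hjN j hj)))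
        have h3 : ∀ k, 1 - gp N (fun k => j k + 1) k = 1 - ((j k : ℝ) + 1) / N := by
          intro k
          unfold gp
          push_cast
          rfl
        rw [prod_congr rfl fun k _ => h3 k] at h2
        exact h2
    have h2 := sum_le_sum h1
    rw [← sum_mul, sum_mass_total hn hC hN, one_mul] at h2
    have h3 : ∑ j ∈ J, mass C N j * ∑ k, phi M N (j k) =
        ∑ k : Fin n, ∑ c ∈ range N, phi M N c * (1 / N) := by
      simp_rw [mul_sum]
      rw [sum_comm]
      apply sum_congr rfl
      intro k _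
      rw [← sum_fiberwise_of_maps_to (s := J) (t := range N) (g := fun j => j k)
        (fun j hj => mem_range.mpr (hjN j hj k))]
      apply sum_congr rfl
      intro c hc
      rw [← sum_mass_slab hn hC hN k (mem_range.mp hc), mul_sum]
      apply sum_congr rfl
      intro j hj
      rw [(mem_filter.mp hj).2]
      ring
    rw [h3] at h2
    have h4 : ∑ k : Fin n, ∑ c ∈ range N, phi M N c * (1 / N) =
        n * ((∑ c ∈ range N, phi M N c) / N) := by
      rw [sum_const, card_univ, Fintype.card_fin, nsmul_eq_mul, ← sum_mul]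
      ring
    rw [h4] at h2
    have h5 : (∑ c ∈ range N, phi M N c) / N ≤ M / N + 1 := by
      rw [div_le_iff₀ hN']
      have := sum_phi_le hM N hN
      field_simp
      linarith
    refine h2.trans ?_
    exact mul_le_mul_of_nonneg_left h5 (by positivity)
  by_contra hcon
  push Not at hcon
  obtain ⟨N, hN⟩ := exists_nat_gt (n * M / (M - n))
  have hpos : 0 < M - n := by linarith
  have hN0 : (0 : ℝ) < N := lt_of_le_of_lt (by positivity) hN
  have hN1 : 1 ≤ N := by exact_mod_cast hN0
  have h1 := key N hN1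
  rw [div_lt_iff₀ hpos] at hN
  have h2 : M * N ≤ n * (M + N) := by
    have h3 : n * (M / N + 1) * N = n * (M + N) := by
      field_simp
    calc M * N ≤ n * (M / N + 1) * N := mul_le_mul_of_nonneg_right h1 hN0.le
      _ = n * (M + N) := h3
  linarith

end Pool.Agent.Helper3.Cop
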